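import Pool.Agent.Run7.h514.VI.Bnd3

/-! Piece BND of the project VI (MP_1906c1_mp): the product of the variance and of the mean square. -/

set_option autoImplicit false
set_option linter.unusedSectionVars false

open scoped BigOperators Matrix
open MeasureTheory

namespace Run7.h514.VI

open Pool.Agent.W788.MFP.Four Pool.Agent.W788.MFP.Form Pool.Agent.W788.BK
open Pool.Agent.W788.MFP.Gm (Γ)
open Pool.Agent.Run7.h47 Pool.Agent.Run7.h47.V

theorem NX_nonneg {d L : ℕ} [NeZero L] (X : T d L → ℂ) (σ : ℝ) (k : T d L) : 0 ≤ NX X σ k := by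
  unfold NX
  exact mul_nonneg (inv_nonneg.2 NN_pos.le) (integral_nonneg fun V => nsq_nonneg _)

/-- **Piece BND.** -/
theorem t_BND (hTL : S_TL) (hCELL : S_CELL) (hL4 : S_L4) (hDEC : S_DEC) (hAV : S_AV)
    (hIBP : S_IBP) : S_BND := by
  intro d hd κ hκ0 hκ1 C_Y c_t ε hCY hct hε
  set e : ℝ := (1 - 21 * κ) / 60 with he
  have he0 : 0 < e := by rw [he]; linarith
  have he1 : e ≤ 1 / 60 := by rw [he]; linarith
  obtain ⟨KQ, Kγ, cc, KK, ct, hKQ, hKγ, hcc, hKK, hct0, s, hs0, hs5, hdat⟩ :=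
    dat hTL hCELL d hd κ e hκ0 hκ1 he0 he1 C_Y c_t hct
  set a : ℝ := e / 7 with ha
  have ha0 : 0 < a := by positivity
  set b1c : ℝ := 100 / ct ^ 2 * Kγ with hb1c
  set b2c : ℝ := 20 / ct ^ 2 * Kγ with hb2c
  have hb1c0 : 0 < b1c := by positivity
  have hb2c0 : 0 < b2c := by positivity
  set CV' : ℝ := 15 * (4 * (2 ^ d * (KQ * b1c ^ 2 + 2 * b2c ^ 2)) + 6 * KK * (cc ^ 4)⁻¹) with hCV
  have hCV0 : 0 < CV' := by positivity
  set CN : ℝ := 8 + 320 / ct ^ 2 * (Kγ + 2) + 80 / (ct ^ 2 * a ^ 2) with hCN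
  have hCN0 : 0 < CN := by positivity
  obtain ⟨s1, hs1, H1⟩ := small_pow (CV' * CN) (111 / 7 * e) (ε ^ 2) (by positivity)
    (by positivity)
  refine ⟨min s s1, lt_min hs0 hs1, (min_le_left _ _).trans_lt (by linarith), ?_⟩
  intro σ hσ hσs
  obtain ⟨ℓ, hℓ, hdat⟩ := hdat σ hσ (hσs.trans (min_le_left _ _))
  refine ⟨ℓ, hℓ, ?_⟩
  intro n L _ hn hLn E τ X hE hnear hdis k
  have hn0 : NeZero n := ⟨by omega⟩
  obtain ⟨cell, χ, M, G, H, hlow⟩ := hdat n L hn hLn E τ X hE hnear hdis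
  set x : ℝ := |σ| with hx
  have hxs1 : x ≤ s1 := hσs.trans (min_le_right _ _)
  have hx1 : x ≤ 1 := by
    have := hσs.trans (min_le_left _ _)
    linarith
  have hσx : σ ^ 2 = x ^ 2 := (sq_abs σ).symm
  have p0 : ∀ u : ℝ, 0 < x ^ u := fun u => Real.rpow_pos_of_pos hσ u
  have padd : ∀ u v : ℝ, x ^ u * x ^ v = x ^ (u + v) := fun u v => (Real.rpow_add hσ u v).symm
  have psq : ∀ u : ℝ, (x ^ u) ^ 2 = x ^ (2 * u) := fun u => by
    rw [← Real.rpow_natCast, ← Real.rpow_mul hσ.le]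
    congr 1
    push_cast
    ring
  have pinv : ∀ u : ℝ, (x ^ u)⁻¹ = x ^ (-u) := fun u => (Real.rpow_neg hσ.le u).symm
  have p2 : x ^ 2 = x ^ (2 : ℝ) := by exact_mod_cast (Real.rpow_natCast x 2).symm
  set δ : ℝ := x ^ (2 - e) with hδ
  set t : ℝ := ct * x ^ (2 + 2 * κ + 2 * e) with ht
  set g : ℝ := Kγ * x ^ (-(2 * a)) with hg
  set Q : ℝ := KQ * x ^ (-(4 * a) - (2 - e) * (5 / 7)) with hQ
  set θ : ℝ := 1 / 2 * δ ^ (9 / (7 * (d : ℝ))) with hθ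
  have hδ0 : 0 < δ := p0 _
  have ht0 : 0 < t := by positivity
  have hg0 : 0 < g := by positivity
  have hQ0 : 0 < Q := by positivity
  have ht2 : (t ^ 2)⁻¹ = (ct ^ 2)⁻¹ * x ^ (-(4 + 4 * κ + 4 * e)) := by
    rw [ht, mul_pow, mul_inv, psq, pinv]
    congr 2
    ring
  -- the two bounds
  have hb1 : 100 * δ ^ 2 / t ^ 2 * g = b1c * x ^ (-(4 * κ) - 6 * e - 2 * a) := by
    rw [div_eq_mul_inv, ht2, hδ, psq, hg, hb1c]
    have h1 : x ^ (-(4 * κ) - 6 * e - 2 * a) =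
        x ^ (2 * (2 - e)) * x ^ (-(4 + 4 * κ + 4 * e)) * x ^ (-(2 * a)) := by
      rw [padd, padd]
      congr 1
      ring
    rw [h1]
    ring
  have hb2 : 20 * δ / t ^ 2 * g = b2c * x ^ (-2 - 4 * κ - 5 * e - 2 * a) := by
    rw [div_eq_mul_inv, ht2, hδ, hg, hb2c]
    have h1 : x ^ (-2 - 4 * κ - 5 * e - 2 * a) =
        x ^ (2 - e) * x ^ (-(4 + 4 * κ + 4 * e)) * x ^ (-(2 * a)) := by
      rw [padd, padd]
      congr 1
      ring
    rw [h1]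
    ring
  set E1 : ℝ := -(10 / 7) - 8 * κ - 12 * e - 8 * a with hE1
  have hVX : VX X σ ≤ CV' * x ^ (4 / 7 - 8 * κ - 12 * e - 8 * a) := by
    refine (VX_bd hL4 hDEC hAV hIBP H).trans ?_
    rw [hb1, hb2, hσx]
    have h1 : Q * (b1c * x ^ (-(4 * κ) - 6 * e - 2 * a)) ^ 2 ≤ KQ * b1c ^ 2 * x ^ E1 := by
      rw [mul_pow, psq, hQ]
      calc KQ * x ^ (-(4 * a) - (2 - e) * (5 / 7)) *
            (b1c ^ 2 * x ^ (2 * (-(4 * κ) - 6 * e - 2 * a))) =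
            KQ * b1c ^ 2 * (x ^ (-(4 * a) - (2 - e) * (5 / 7)) *
              x ^ (2 * (-(4 * κ) - 6 * e - 2 * a))) := by ring
        _ ≤ KQ * b1c ^ 2 * x ^ E1 := by
            rw [padd]
            refine mul_le_mul_of_nonneg_left (pow_cmp hσ hx1 ?_) (by positivity)
            rw [hE1]
            linarith
    have h2 : lw d L θ * (b2c * x ^ (-2 - 4 * κ - 5 * e - 2 * a)) ^ 2 ≤
        2 * b2c ^ 2 * x ^ E1 := by
      rw [mul_pow, psq]
      calc lw d L θ * (b2c ^ 2 * x ^ (2 * (-2 - 4 * κ - 5 * e - 2 * a))) ≤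
            2 * x ^ ((2 - e) * (9 / 7)) *
              (b2c ^ 2 * x ^ (2 * (-2 - 4 * κ - 5 * e - 2 * a))) :=
              mul_le_mul_of_nonneg_right hlow (by positivity)
        _ = 2 * b2c ^ 2 * (x ^ ((2 - e) * (9 / 7)) *
              x ^ (2 * (-2 - 4 * κ - 5 * e - 2 * a))) := by ring
        _ ≤ 2 * b2c ^ 2 * x ^ E1 := by
            rw [padd]
            refine mul_le_mul_of_nonneg_left (pow_cmp hσ hx1 ?_) (by positivity)
            rw [hE1]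
            linarith
    have h3 : 6 * (KK * x ^ 39) * ((cc * x ^ 7) ^ 4)⁻¹ ≤ 6 * KK * (cc ^ 4)⁻¹ * x ^ E1 := by
      have h4 : 6 * (KK * x ^ 39) * ((cc * x ^ 7) ^ 4)⁻¹ = 6 * KK * (cc ^ 4)⁻¹ * x ^ 11 := by
        field_simp
      rw [h4]
      have h5 : x ^ 11 ≤ x ^ E1 := by
        rw [← Real.rpow_natCast]
        refine pow_cmp hσ hx1 ?_
        rw [hE1]
        push_cast
        linarith
      exact mul_le_mul_of_nonneg_left h5 (by positivity)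
    have h4 : x ^ (4 / 7 - 8 * κ - 12 * e - 8 * a) = x ^ 2 * x ^ E1 := by
      rw [p2, padd, hE1]
      congr 1
      ring
    rw [h4]
    calc 15 * x ^ 2 * (4 * (2 ^ d * (Q * (b1c * x ^ (-(4 * κ) - 6 * e - 2 * a)) ^ 2 +
          lw d L θ * (b2c * x ^ (-2 - 4 * κ - 5 * e - 2 * a)) ^ 2)) +
          6 * (KK * x ^ 39) * ((cc * x ^ 7) ^ 4)⁻¹)
        ≤ 15 * x ^ 2 * (4 * (2 ^ d * (KQ * b1c ^ 2 * x ^ E1 + 2 * b2c ^ 2 * x ^ E1)) +
          6 * KK * (cc ^ 4)⁻¹ * x ^ E1) := by gcongr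
      _ = CV' * (x ^ 2 * x ^ E1) := by rw [hCV]; ring
  have hlog : Real.log (1 / x) ≤ x ^ (-a) / a := log_bd hσ ha0
  have hlog0 : 0 ≤ Real.log (1 / x) := Real.log_nonneg (by
    rw [le_div_iff₀ hσ]
    linarith)
  have hNX : NX X σ k * (‖X k‖ ^ 2 + (σ ^ 2 * Real.log (1 / x)) ^ 2) ≤
      CN * x ^ (-(4 * κ) - 5 * e - 2 * a) := by
    have h1 := NX_bd2 hDEC hAV H k
    have h2 := NX_bd1 hDEC hAV H k
    have h3 : g + δ⁻¹ * Real.sqrt (3 * x ^ 130) ≤ (Kγ + 2) * x ^ (-(2 * a)) := by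
      have h4 : Real.sqrt (3 * x ^ 130) ≤ 2 * x ^ 65 := by
        rw [Real.sqrt_le_iff]
        refine ⟨by positivity, ?_⟩
        have h4 : (2 * x ^ 65) ^ 2 = 4 * x ^ 130 := by ring
        rw [h4]
        have : 0 ≤ x ^ 130 := by positivity
        linarith
      have h5 : δ⁻¹ * Real.sqrt (3 * x ^ 130) ≤ 2 * x ^ (-(2 * a)) := by
        calc δ⁻¹ * Real.sqrt (3 * x ^ 130) ≤ δ⁻¹ * (2 * x ^ 65) := by gcongr
          _ = 2 * (x ^ (-(2 - e)) * x ^ ((65 : ℕ) : ℝ)) := by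
              rw [hδ, pinv, Real.rpow_natCast]
              ring
          _ ≤ 2 * x ^ (-(2 * a)) := by
              rw [padd]
              refine mul_le_mul_of_nonneg_left (pow_cmp hσ hx1 ?_) (by norm_num)
              push_cast
              linarith
      calc g + δ⁻¹ * Real.sqrt (3 * x ^ 130) ≤ Kγ * x ^ (-(2 * a)) + 2 * x ^ (-(2 * a)) :=
            add_le_add le_rfl h5
        _ = _ := by ring
    have h4 : σ ^ 2 * (δ / t ^ 2) = (ct ^ 2)⁻¹ * x ^ (-(4 * κ) - 5 * e) := by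
      rw [hσx, div_eq_mul_inv, ht2, hδ, p2]
      have h5 : x ^ (-(4 * κ) - 5 * e) =
          x ^ (2 : ℝ) * (x ^ (2 - e) * x ^ (-(4 + 4 * κ + 4 * e))) := by
        rw [padd, padd]
        congr 1
        ring
      rw [h5]
      ring
    have h5 : ‖X k‖ ^ 2 * NX X σ k ≤
        (8 + 320 / ct ^ 2 * (Kγ + 2)) * x ^ (-(4 * κ) - 5 * e - 2 * a) := by
      have h6 : (1 : ℝ) ≤ x ^ (-(4 * κ) - 5 * e - 2 * a) := by
        have h7 := pow_cmp (u := 0) (v := -(4 * κ) - 5 * e - 2 * a) hσ hx1 (by linarith)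
        rwa [Real.rpow_zero] at h7
      calc ‖X k‖ ^ 2 * NX X σ k ≤
            8 + 320 * σ ^ 2 * (δ / t ^ 2) * (g + δ⁻¹ * Real.sqrt (3 * x ^ 130)) := h1
        _ = 8 + 320 * (σ ^ 2 * (δ / t ^ 2)) * (g + δ⁻¹ * Real.sqrt (3 * x ^ 130)) := by ring
        _ ≤ 8 + 320 * ((ct ^ 2)⁻¹ * x ^ (-(4 * κ) - 5 * e)) * ((Kγ + 2) * x ^ (-(2 * a))) := by
            rw [h4]
            gcongr
        _ = 8 + 320 / ct ^ 2 * (Kγ + 2) * (x ^ (-(4 * κ) - 5 * e) * x ^ (-(2 * a))) := by ring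
        _ = 8 + 320 / ct ^ 2 * (Kγ + 2) * x ^ (-(4 * κ) - 5 * e - 2 * a) := by
            rw [padd, sub_eq_add_neg (-(4 * κ) - 5 * e) (2 * a)]
        _ ≤ 8 * x ^ (-(4 * κ) - 5 * e - 2 * a) +
            320 / ct ^ 2 * (Kγ + 2) * x ^ (-(4 * κ) - 5 * e - 2 * a) := by linarith
        _ = _ := by ring
    have h6 : NX X σ k * (σ ^ 2 * Real.log (1 / x)) ^ 2 ≤
        80 / (ct ^ 2 * a ^ 2) * x ^ (-(4 * κ) - 5 * e - 2 * a) := by
      have h7 : (σ ^ 2 * Real.log (1 / x)) ^ 2 ≤ (x ^ 2 * (x ^ (-a) / a)) ^ 2 := by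
        rw [hσx]
        exact pow_le_pow_left₀ (by positivity) (by gcongr) 2
      calc NX X σ k * (σ ^ 2 * Real.log (1 / x)) ^ 2 ≤
            80 / t ^ 2 * (x ^ 2 * (x ^ (-a) / a)) ^ 2 :=
            mul_le_mul h2 h7 (by positivity) (by positivity)
        _ = 80 / (ct ^ 2 * a ^ 2) * (x ^ (-(4 + 4 * κ + 4 * e)) * (x ^ (4 : ℝ) *
              x ^ (2 * (-a)))) := by
            have h8 : (x ^ 2 * (x ^ (-a) / a)) ^ 2 = x ^ (4 : ℝ) * x ^ (2 * (-a)) / a ^ 2 := by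
              rw [mul_pow, div_pow, psq, p2, psq]
              norm_num
              ring
            rw [h8, div_eq_mul_inv, ht2]
            field_simp
        _ ≤ 80 / (ct ^ 2 * a ^ 2) * x ^ (-(4 * κ) - 5 * e - 2 * a) := by
            rw [padd, padd]
            refine mul_le_mul_of_nonneg_left (pow_cmp hσ hx1 ?_) (by positivity)
            linarith
    calc NX X σ k * (‖X k‖ ^ 2 + (σ ^ 2 * Real.log (1 / x)) ^ 2) =
          ‖X k‖ ^ 2 * NX X σ k + NX X σ k * (σ ^ 2 * Real.log (1 / x)) ^ 2 := by ring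
      _ ≤ (8 + 320 / ct ^ 2 * (Kγ + 2)) * x ^ (-(4 * κ) - 5 * e - 2 * a) +
          80 / (ct ^ 2 * a ^ 2) * x ^ (-(4 * κ) - 5 * e - 2 * a) := add_le_add h5 h6
      _ = _ := by rw [hCN]; ring
  have hN0 : 0 ≤ NX X σ k * (‖X k‖ ^ 2 + (σ ^ 2 * Real.log (1 / x)) ^ 2) :=
    mul_nonneg (NX_nonneg X σ k) (by positivity)
  calc VX X σ * NX X σ k * (‖X k‖ ^ 2 + (σ ^ 2 * Real.log (1 / x)) ^ 2) =
        VX X σ * (NX X σ k * (‖X k‖ ^ 2 + (σ ^ 2 * Real.log (1 / x)) ^ 2)) := by ring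
    _ ≤ (CV' * x ^ (4 / 7 - 8 * κ - 12 * e - 8 * a)) *
        (CN * x ^ (-(4 * κ) - 5 * e - 2 * a)) :=
        mul_le_mul hVX hNX hN0 (by positivity)
    _ = CV' * CN * (x ^ (4 / 7 - 8 * κ - 12 * e - 8 * a) * x ^ (-(4 * κ) - 5 * e - 2 * a)) := by
        ring
    _ = CV' * CN * x ^ (111 / 7 * e) := by
        rw [padd]
        congr 2
        rw [ha, he]
        ring
    _ ≤ ε ^ 2 := H1 x hσ hxs1

end Run7.h514.VI
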