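import Pool.Agent.Run7.h136.VI.AV

/-! PIECE CELL: the form bound for the potential in a set of sites. Copy of the file
Run7/h136/VI/CELL.lean of helper136; one step is done in another way. -/

set_option autoImplicit false
set_option linter.unusedSectionVars false

open scoped BigOperators Matrix
open MeasureTheory ProbabilityTheory

namespace Run7.h514.VI.Cl

open Pool.Agent.W788.MFP.Gm (Γ γ)
open Pool.Agent.W788.MFP Pool.Agent.W788.MFP.Four Pool.Agent.W788.MFP.Form Pool.Agent.W788.BK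
open Pool.Agent.Run7.h47 Pool.Agent.Run7.h47.V
open Run7.h136.VI

variable {d L : ℕ} [NeZero L]

/-- the kernel of the inverse of `J`, restricted to `Q` -/
noncomputable def PQ (E δ : ℝ) (Q : Finset (T d L)) : Matrix {x // x ∈ Q} {x // x ∈ Q} ℝ :=
  fun x y => K (fun k => (J E δ k)⁻¹) (x.1 - y.1)

/-- extension by zero -/
noncomputable def ext (Q : Finset (T d L)) (f : {x // x ∈ Q} → ℝ) : T d L → ℝ :=
  fun x => if h : x ∈ Q then f ⟨x, h⟩ else 0

theorem sum_ext (Q : Finset (T d L)) (f : {x // x ∈ Q} → ℝ) (F : T d L → ℝ → ℝ)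
    (h0 : ∀ x, F x 0 = 0) : ∑ x, F x (ext Q f x) = ∑ x : {x // x ∈ Q}, F x.1 (f x) := by
  have h1 : ∑ x, F x (ext Q f x) = ∑ x ∈ Q, F x (ext Q f x) := by
    symm
    apply Finset.sum_subset (Finset.subset_univ _)
    intro x _ hx
    unfold ext
    rw [dif_neg hx, h0]
  rw [h1, ← Finset.sum_coe_sort]
  refine Finset.sum_congr rfl fun x _ => ?_
  unfold ext
  rw [dif_pos x.2]

theorem PQ_form (E δ : ℝ) (Q : Finset (T d L)) (f : {x // x ∈ Q} → ℝ) :
    f ⬝ᵥ (PQ E δ Q *ᵥ f) = q (fun k => (J E δ k)⁻¹) (ext Q f) := by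
  rw [q_ker _ _ (inv_neg E δ)]
  have h1 := sum_ext Q f (fun x t => ∑ y, K (fun k => (J E δ k)⁻¹) (x - y) * (t * ext Q f y))
    (fun x => by simp)
  rw [h1]
  unfold dotProduct Matrix.mulVec dotProduct
  refine Finset.sum_congr rfl fun x _ => ?_
  have h2 := sum_ext Q f (fun y t => K (fun k => (J E δ k)⁻¹) (x.1 - y) * (f x * t))
    (fun y => by simp)
  rw [h2, Finset.mul_sum]
  refine Finset.sum_congr rfl fun y _ => ?_
  unfold PQ
  ring

theorem PQ_herm (E δ : ℝ) (Q : Finset (T d L)) : (PQ E δ Q).IsHermitian := by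
  ext x y
  rw [Matrix.conjTranspose_apply, star_trivial]
  unfold PQ
  rw [← K_neg, neg_sub]

theorem ext_sq (Q : Finset (T d L)) (f : {x // x ∈ Q} → ℝ) :
    ∑ x, ext Q f x ^ 2 = ∑ i, f i ^ 2 :=
  sum_ext Q f (fun _ t => t ^ 2) fun _ => by simp

theorem PQ_up (E δ : ℝ) (hδ : 0 < δ) (Q : Finset (T d L)) (f : {x // x ∈ Q} → ℝ) :
    f ⬝ᵥ (PQ E δ Q *ᵥ f) ≤ δ⁻¹ * ∑ i, f i ^ 2 := by
  rw [PQ_form, ← ext_sq, sum_sq, ← q_const]
  apply q_mono
  intro k
  rw [mul_one]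
  exact inv_anti₀ hδ (J_ge E δ hδ k)

theorem PQ_pos (E δ : ℝ) (hδ : 0 < δ) (Q : Finset (T d L)) :
    ∃ c₀ : ℝ, 0 < c₀ ∧ ∀ f : {x // x ∈ Q} → ℝ, c₀ * ∑ i, f i ^ 2 ≤ f ⬝ᵥ (PQ E δ Q *ᵥ f) := by
  obtain ⟨k₀, hk₀⟩ := Finite.exists_min (fun k : T d L => (J E δ k)⁻¹)
  refine ⟨(J E δ k₀)⁻¹, inv_pos.2 (J_pos E δ hδ k₀), fun f => ?_⟩
  rw [PQ_form, ← ext_sq, sum_sq, ← q_const]
  apply q_mono
  intro k
  rw [mul_one]
  exact hk₀ k

theorem dualQ (E δ : ℝ) (hδ : 0 < δ) (Q : Finset (T d L)) (g : {x // x ∈ Q} → ℝ)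
    (w : T d L → ℝ) : ∑ x : {x // x ∈ Q}, w x.1 * g x ≤
      1 / 2 * q (J E δ) w + 1 / 2 * (g ⬝ᵥ (PQ E δ Q *ᵥ g)) := by
  have h1 := young E δ hδ w (ext Q (fun x => 1 / 2 * g x))
  have h2 := sum_ext Q (fun x => 1 / 2 * g x) (fun x t => w x * t) fun _ => by simp
  rw [h2, ← PQ_form] at h1
  have h3 : (fun x => 1 / 2 * g x) ⬝ᵥ (PQ E δ Q *ᵥ fun x => 1 / 2 * g x) =
      1 / 4 * (g ⬝ᵥ (PQ E δ Q *ᵥ g)) := by
    unfold dotProduct Matrix.mulVec dotProduct
    rw [Finset.mul_sum]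
    refine Finset.sum_congr rfl fun x _ => ?_
    rw [Finset.mul_sum, Finset.mul_sum, Finset.mul_sum]
    exact Finset.sum_congr rfl fun y _ => by ring
  rw [h3] at h1
  have h4 : ∑ x : {x // x ∈ Q}, w x.1 * (1 / 2 * g x) = 1 / 2 * ∑ x : {x // x ∈ Q}, w x.1 * g x := by
    rw [Finset.mul_sum]
    exact Finset.sum_congr rfl fun x _ => by ring
  rw [h4] at h1
  linarith

theorem cell : S_CELL := by
  intro d L _ hd E δ t hδ hδ1 ht p hp Q
  classical
  have hL : (0 : ℝ) < L := by exact_mod_cast Nat.pos_of_ne_zero (NeZero.ne L)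
  have hδ0 : 0 < δ := lt_of_lt_of_le (by positivity) hδ
  set P := PQ E δ Q with hP
  obtain ⟨U, l, hU1, hU2, hPU⟩ := Nck.spec P (PQ_herm E δ Q)
  have hform : ∀ f : {x // x ∈ Q} → ℝ, f ⬝ᵥ (P *ᵥ f) = ∑ i, l i * (Uᵀ *ᵥ f) i ^ 2 := by
    intro f
    rw [hPU]
    exact Nck.form_spec U l f
  -- the eigenvalues
  have hUU : ∀ g : {x // x ∈ Q} → ℝ, Uᵀ *ᵥ (U *ᵥ g) = g := by
    intro g
    rw [Matrix.mulVec_mulVec, hU2, Matrix.one_mulVec]
  have hsqU : ∀ g : {x // x ∈ Q} → ℝ, ∑ i, (U *ᵥ g) i ^ 2 = ∑ i, g i ^ 2 := by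
    intro g
    have := Nck.norm_spec U hU1 (U *ᵥ g)
    rw [hUU] at this
    exact this.symm
  have hsing : ∀ i : {x // x ∈ Q}, ∑ j, l j * (Pi.single i (1 : ℝ) : {x // x ∈ Q} → ℝ) j ^ 2 =
      l i := by
    intro i
    rw [Finset.sum_eq_single i]
    · simp
    · intro j _ hj
      simp [hj]
    · intro h
      exact absurd (Finset.mem_univ _) h
  have hsing1 : ∀ i : {x // x ∈ Q}, ∑ j, (Pi.single i (1 : ℝ) : {x // x ∈ Q} → ℝ) j ^ 2 =
      1 := by
    intro i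
    rw [Finset.sum_eq_single i]
    · simp
    · intro j _ hj
      simp [hj]
    · intro h
      exact absurd (Finset.mem_univ _) h
  have hlpos : ∀ i, 0 < l i := by
    intro i
    obtain ⟨c₀, hc₀, hb⟩ := PQ_pos E δ hδ0 Q
    have h1 := hb (U *ᵥ Pi.single i 1)
    rw [← hP, hform, hUU, hsing, hsqU, hsing1, mul_one] at h1
    linarith
  have hlup : ∀ i, l i ≤ δ⁻¹ := by
    intro i
    have h1 := PQ_up E δ hδ0 Q (U *ᵥ Pi.single i 1)
    rw [← hP, hform, hUU, hsing, hsqU, hsing1, mul_one] at h1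
    exact h1
  -- the factor
  set w : {x // x ∈ Q} → {x // x ∈ Q} → ℝ := fun x i => U x i * Real.sqrt (l i) with hw
  have hdiag : ∀ x, ∑ i, w x i ^ 2 = P x x := by
    intro x
    rw [hPU, Matrix.mul_apply]
    refine Finset.sum_congr rfl fun i _ => ?_
    rw [Matrix.mul_diagonal, Matrix.transpose_apply, hw]
    simp only
    rw [mul_pow, Real.sq_sqrt (hlpos i).le]
    ring
  have hPxx : ∀ x, P x x ≤ gg δ := by
    intro x
    rw [hP]
    unfold PQ
    rw [sub_self, K0]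
    exact Dos.green d hd E δ hδ hδ1
  have hwU : ∀ (f : {x // x ∈ Q} → ℝ) (x : {x // x ∈ Q}),
      ∑ i, w x i * f i = (U *ᵥ fun i => Real.sqrt (l i) * f i) x := by
    intro f x
    unfold Matrix.mulVec dotProduct
    exact Finset.sum_congr rfl fun i _ => by rw [hw]; ring
  obtain ⟨G, hG, hGp, hb⟩ := Nck.tail w (gg δ) δ⁻¹ t (gg_pos δ hδ0 hδ1).le
    (inv_nonneg.2 hδ0.le) ht (fun x => by rw [hdiag]; exact hPxx x) (fun f => by
      simp only [hwU]
      rw [hsqU, Finset.mul_sum]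
      refine Finset.sum_le_sum fun i _ => ?_
      rw [mul_pow, Real.sq_sqrt (hlpos i).le]
      exact mul_le_mul_of_nonneg_right (hlup i) (sq_nonneg _)) p hp
  have hrm : Measurable fun (V : T d L → ℝ) (x : {x // x ∈ Q}) => V x :=
    measurable_pi_lambda _ fun x => measurable_pi_apply _
  refine ⟨(fun (V : T d L → ℝ) (x : {x // x ∈ Q}) => V x) ⁻¹' G, hrm hG, ?_, ?_, ?_⟩
  · intro V V' hV
    have : (fun x : {x // x ∈ Q} => V x) = fun x : {x // x ∈ Q} => V' x :=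
      funext fun x => hV x.1 x.2
    rw [Set.mem_preimage, Set.mem_preimage, this]
  · have h1 := marg (κ := T d L) (fun x => x ∈ Q) Gᶜ hG.compl
    rw [Set.preimage_compl] at h1
    rw [h1]
    have h2 : (Fintype.card {x // x ∈ Q} : ℝ) = Q.card := by simp
    rw [h2] at hGp
    have key : ∀ i1 i2 : Fintype {x // x ∈ Q},
        @Measure.pi {x // x ∈ Q} (fun _ => ℝ) i1 _ (fun _ => γ) =
          @Measure.pi {x // x ∈ Q} (fun _ => ℝ) i2 _ (fun _ => γ) := fun i1 i2 => by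
      rw [Subsingleton.elim i1 i2]
    refine le_trans (le_of_eq ?_) hGp
    exact congrArg (fun μ : Measure ({x // x ∈ Q} → ℝ) => μ.real Gᶜ) (key _ _)
  · intro V hV u
    -- the vector
    set uQ : {x // x ∈ Q} → ℝ := fun x => u x.1 with huQ
    set f : {x // x ∈ Q} → ℝ := fun i => (Real.sqrt (l i))⁻¹ * (Uᵀ *ᵥ uQ) i with hf
    have hs : ∀ i, Real.sqrt (l i) ≠ 0 := fun i => (Real.sqrt_pos.2 (hlpos i)).ne'
    have h1 : ∀ x, ∑ i, w x i * f i = u x.1 := by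
      intro x
      rw [hwU]
      have e1 : (fun i => Real.sqrt (l i) * f i) = Uᵀ *ᵥ uQ := by
        funext i
        rw [hf]
        simp only
        rw [← mul_assoc, mul_inv_cancel₀ (hs i), one_mul]
      rw [e1, Matrix.mulVec_mulVec, hU1, Matrix.one_mulVec]
    have h2 := hb (fun x => V x) hV f
    simp only [h1] at h2
    have h3 : ∑ x : {x // x ∈ Q}, V x.1 * u x.1 ^ 2 = ∑ x ∈ Q, V x * u x ^ 2 :=
      Finset.sum_coe_sort Q fun x => V x * u x ^ 2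
    rw [h3] at h2
    refine h2.trans (mul_le_mul_of_nonneg_left ?_ ht.le)
    -- duality
    set g : {x // x ∈ Q} → ℝ := U *ᵥ fun i => (l i)⁻¹ * (Uᵀ *ᵥ uQ) i with hg
    have h4 := dualQ E δ hδ0 Q g u
    rw [← hP] at h4
    have h5 : g ⬝ᵥ (P *ᵥ g) = ∑ i, f i ^ 2 := by
      rw [hform, hg, hUU]
      refine Finset.sum_congr rfl fun i _ => ?_
      rw [hf]
      simp only
      rw [mul_pow, mul_pow, inv_pow, inv_pow, Real.sq_sqrt (hlpos i).le]
      have := (hlpos i).ne'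
      field_simp
    have h6 : ∑ x : {x // x ∈ Q}, u x.1 * g x = ∑ i, f i ^ 2 := by
      have e1 : ∑ x : {x // x ∈ Q}, u x.1 * g x = uQ ⬝ᵥ g := rfl
      rw [e1, hg, Matrix.dotProduct_mulVec, ← Matrix.mulVec_transpose]
      unfold dotProduct
      refine Finset.sum_congr rfl fun i _ => ?_
      rw [hf]
      simp only
      rw [mul_pow, inv_pow, Real.sq_sqrt (hlpos i).le]
      ring
    rw [h5, h6] at h4
    linarith

end Run7.h514.VI.Cl
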