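import Pool.Agent.Run7.h514.VI.OfBnd
import Pool.Agent.Run7.h514.VI.BND
import Pool.Agent.Run7.h514.VI.Cell
import Pool.Agent.Run7.h136.VI.DEC
import Pool.Agent.Run7.h338.VI.TL
import Pool.Agent.Run7.h338.VI.L4

/-!
All parts of the project VI.
-/

set_option autoImplicit false

namespace Run7.h514.VI

open Pool.Agent.Run7.h47.V

theorem bnd : S_BND :=
  t_BND Pool.Agent.Run7.h338.VI.t_TL Run7.h514.VI.Cl.cell Pool.Agent.Run7.h338.VI.t_L4
    Run7.h136.VI.dec Run7.h136.VI.av Pool.Agent.Run7.h824.V.t_IBP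

/-- **The theorem of the project VI.** -/
theorem viT : S_FIN := of_bnd bnd

end Run7.h514.VI
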