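import Pool.Agent.N659.HB.Stm4

/-!
# Expansion of the transform of a law with small support

For `MP_1906c1_mp` (project VI of helper47), part GAPV.
-/

set_option autoImplicit false

namespace Run7.h514.VI

open MeasureTheory Filter Pool.Agent.W792.LL Pool.Agent.W792.WA Pool.Agent.N659.HB
open scoped Topology ENNReal

noncomputable section

/-- Expansion of the transform of a law with small support, one term. -/
theorem bet_exp (ρ : Measure ℝ) [IsProbabilityMeasure ρ] {A : ℝ} (hA : 0 < A)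
    (hρ : ρ (Set.Icc (-A) A)ᶜ = 0) : ∃ m : ℝ, |m| ≤ A ∧ ∀ T : ℂ, 8 * A ≤ ‖T‖ →
    bet ρ T ≠ 0 ∧ ‖1 / bet ρ T - (T + (m : ℂ))‖ ≤ 5 * A ^ 2 / ‖T‖ ∧
    1 / (2 * ‖T‖) ≤ ‖bet ρ T‖ := by
  have hae : ∀ᵐ a ∂ρ, |a| ≤ A := by
    have h1 : ∀ᵐ a ∂ρ, a ∈ Set.Icc (-A) A := by
      rw [ae_iff]
      exact hρ
    filter_upwards [h1] with a ha
    exact abs_le.2 ha
  have hi1 : Integrable (fun a : ℝ => (a : ℂ)) ρ := by
    refine Integrable.of_bound Complex.measurable_ofReal.aestronglyMeasurable A ?_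
    filter_upwards [hae] with a ha
    rw [Complex.norm_real, Real.norm_eq_abs]
    exact ha
  obtain ⟨m, hm⟩ : ∃ m : ℝ, m = ∫ a, a ∂ρ := ⟨_, rfl⟩
  have hmC : (m : ℂ) = ∫ a, (a : ℂ) ∂ρ := by
    rw [hm]
    exact integral_ofReal.symm
  have hmA : |m| ≤ A := by
    have h1 : ‖∫ a, a ∂ρ‖ ≤ A * ρ.real Set.univ := by
      refine norm_integral_le_of_norm_le_const ?_
      filter_upwards [hae] with a ha
      rw [Real.norm_eq_abs]
      exact ha
    rw [probReal_univ, mul_one, Real.norm_eq_abs] at h1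
    rw [hm]
    exact h1
  refine ⟨m, hmA, ?_⟩
  intro T hT
  obtain ⟨t, ht⟩ : ∃ t, t = ‖T‖ := ⟨_, rfl⟩
  rw [← ht] at hT ⊢
  have ht0 : 0 < t := by linarith
  have hT0 : T ≠ 0 := by
    rw [← norm_pos_iff, ← ht]
    exact ht0
  have hlow : ∀ a : ℝ, |a| ≤ A → 7 / 8 * t ≤ ‖T + (a : ℂ)‖ := by
    intro a ha
    have h1 := norm_sub_norm_le T (-(a : ℂ))
    rw [norm_neg, Complex.norm_real, Real.norm_eq_abs, sub_neg_eq_add, ← ht] at h1
    linarith
  have hi2 : Integrable (fun a : ℝ => 1 / (T + (a : ℂ))) ρ := by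
    refine Integrable.of_bound ?_ (1 / (7 / 8 * t)) ?_
    · exact (measurable_const.div
        (measurable_const.add Complex.measurable_ofReal)).aestronglyMeasurable
    · filter_upwards [hae] with a ha
      rw [norm_div, norm_one]
      exact one_div_le_one_div_of_le (by positivity) (hlow a ha)
  obtain ⟨F, hF⟩ : ∃ F : ℝ → ℂ,
      F = fun a : ℝ => ((m : ℂ) - (a : ℂ)) * (-(a : ℂ)) / (T * (T + (a : ℂ))) := ⟨_, rfl⟩
  have hFb : ∀ᵐ a ∂ρ, ‖F a‖ ≤ 4 * A ^ 2 / t ^ 2 := by
    filter_upwards [hae] with a ha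
    rw [hF]
    show ‖((m : ℂ) - a) * (-a) / (T * (T + (a : ℂ)))‖ ≤ 4 * A ^ 2 / t ^ 2
    rw [norm_div, norm_mul, norm_mul, norm_neg, ← Complex.ofReal_sub, Complex.norm_real,
      Complex.norm_real, Real.norm_eq_abs, Real.norm_eq_abs, ← ht]
    have h1 : |m - a| ≤ 2 * A := by
      have := abs_sub m a
      linarith
    have h2 := hlow a ha
    calc |m - a| * |a| / (t * ‖T + (a : ℂ)‖) ≤ (2 * A) * A / (t * (7 / 8 * t)) := by
          apply div_le_div₀ (by positivity) _ (by positivity) _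
          · exact mul_le_mul h1 ha (abs_nonneg _) (by positivity)
          · exact mul_le_mul_of_nonneg_left h2 ht0.le
      _ = 16 / 7 * A ^ 2 / t ^ 2 := by
          field_simp
          norm_num
      _ ≤ 4 * A ^ 2 / t ^ 2 := by
          apply div_le_div_of_nonneg_right _ (by positivity)
          nlinarith [sq_nonneg A]
  have hFi : Integrable F ρ := by
    refine Integrable.of_bound ?_ _ hFb
    rw [hF]
    exact ((measurable_const.sub Complex.measurable_ofReal).mul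
      Complex.measurable_ofReal.neg |>.div (measurable_const.mul
        (measurable_const.add Complex.measurable_ofReal))).aestronglyMeasurable
  have hδb : ‖∫ a, F a ∂ρ‖ ≤ 4 * A ^ 2 / t ^ 2 := by
    have h1 := norm_integral_le_of_norm_le_const (μ := ρ) hFb
    rwa [probReal_univ, mul_one] at h1
  obtain ⟨δ, hδ⟩ : ∃ δ, δ = ∫ a, F a ∂ρ := ⟨_, rfl⟩
  rw [← hδ] at hδb
  have hkey : (T + m) * bet ρ T = 1 + δ := by
    unfold bet
    rw [← integral_const_mul]
    have h1 : ∫ a : ℝ, (T + m) * (1 / (T + (a : ℂ))) ∂ρ =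
        ∫ a : ℝ, (1 + (((m : ℂ) - a) / T) + F a) ∂ρ := by
      refine integral_congr_ae ?_
      filter_upwards [hae] with a ha
      have h2 : T + (a : ℂ) ≠ 0 := by
        rw [← norm_pos_iff]
        have := hlow a ha
        have : 0 < 7 / 8 * t := by positivity
        linarith
      rw [hF]
      field_simp
      ring
    have i3 : Integrable (fun a : ℝ => (m : ℂ) - (a : ℂ)) ρ := (integrable_const _).sub hi1
    have i4 : Integrable (fun a : ℝ => ((m : ℂ) - (a : ℂ)) / T) ρ := i3.div_const _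
    have i5 : Integrable (fun a : ℝ => 1 + ((m : ℂ) - (a : ℂ)) / T) ρ :=
      (integrable_const _).add i4
    rw [h1, integral_add i5 hFi, integral_add (integrable_const _) i4,
      integral_div, integral_sub (integrable_const _) hi1, ← hmC, ← hδ]
    simp
  have hsm : 4 * A ^ 2 / t ^ 2 ≤ 1 / 16 := by
    rw [div_le_div_iff₀ (by positivity) (by norm_num)]
    nlinarith
  have hδ16 : ‖δ‖ ≤ 1 / 16 := hδb.trans hsm
  have h1δ : 15 / 16 ≤ ‖1 + δ‖ := by
    have h1 := norm_sub_norm_le (1 : ℂ) (-δ)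
    rw [norm_one, norm_neg, sub_neg_eq_add] at h1
    linarith
  have h1δ0 : 1 + δ ≠ 0 := by
    rw [← norm_pos_iff]
    linarith
  have hβ0 : bet ρ T ≠ 0 := by
    intro h0
    rw [h0, mul_zero] at hkey
    exact h1δ0 hkey.symm
  have hTm : ‖T + (m : ℂ)‖ ≤ 9 / 8 * t := by
    have h1 := norm_add_le T (m : ℂ)
    rw [Complex.norm_real, Real.norm_eq_abs, ← ht] at h1
    linarith
  refine ⟨hβ0, ?_, ?_⟩
  · have e1 : 1 / bet ρ T - (T + (m : ℂ)) = -((T + (m : ℂ)) * δ / (1 + δ)) := by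
      rw [div_sub' hβ0, ← hkey]
      have h2 : T + (m : ℂ) ≠ 0 := by
        intro h0
        rw [h0, zero_mul] at hkey
        exact h1δ0 hkey.symm
      field_simp
      have h3 : δ = (T + m) * bet ρ T - 1 := by rw [hkey]; ring
      rw [h3]
      ring
    rw [e1, norm_neg, norm_div, norm_mul]
    calc ‖T + (m : ℂ)‖ * ‖δ‖ / ‖1 + δ‖ ≤ (9 / 8 * t) * (4 * A ^ 2 / t ^ 2) / (15 / 16) := by
          apply div_le_div₀ (by positivity) _ (by norm_num) h1δ
          exact mul_le_mul hTm hδb (norm_nonneg _) (by positivity)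
      _ = 24 / 5 * (A ^ 2 / t) := by
          field_simp
          norm_num
      _ ≤ 5 * A ^ 2 / t := by
          have h2 : 0 ≤ A ^ 2 / t := by positivity
          calc 24 / 5 * (A ^ 2 / t) ≤ 5 * (A ^ 2 / t) := by linarith
            _ = 5 * A ^ 2 / t := by ring
  · have h2 : 15 / 16 ≤ (9 / 8 * t) * ‖bet ρ T‖ := by
      calc 15 / 16 ≤ ‖1 + δ‖ := h1δ
        _ = ‖T + (m : ℂ)‖ * ‖bet ρ T‖ := by rw [← norm_mul, hkey]
        _ ≤ (9 / 8 * t) * ‖bet ρ T‖ := mul_le_mul_of_nonneg_right hTm (norm_nonneg _)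
    rw [div_le_iff₀ (by positivity)]
    nlinarith [norm_nonneg (bet ρ T)]

end

end Run7.h514.VI
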