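import Pool.Agent.Run7.h47.V.Bnd2
import Pool.Agent.Run7.h47.QB2
import Pool.Agent.Run7.h47.Par
import Pool.Agent.Run7.h136.VI.AV

/-! Piece BND of the project VI (MP_1906c1_mp), part 3: the data exist. -/

set_option autoImplicit false
set_option linter.unusedSectionVars false

open scoped BigOperators Matrix
open MeasureTheory

namespace Run7.h514.VI

open Pool.Agent.W788.MFP.Four Pool.Agent.W788.MFP.Form Pool.Agent.W788.BK
open Pool.Agent.W788.MFP.Gm (Γ)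
open Pool.Agent.Run7.h47 Pool.Agent.Run7.h47.V
open Pool.Agent.W788.MFP.Dos (C3)

section site

variable {d L : ℕ} [NeZero L]

/-- The bound for the potential at one site. -/
theorem site_bd {Q : Finset (T d L)} {V : T d L → ℝ} {τ₀ E δ : ℝ} (hδ0 : 0 < δ) (hδ : δ ≤ 1 / 2)
    (hE : |E| ≤ 2 * d) (hτ : 0 ≤ τ₀)
    (h : ∀ w : T d L → ℝ, |∑ x ∈ Q, V x * w x ^ 2| ≤ τ₀ * q (J E δ) w) {x : T d L} (hx : x ∈ Q) :
    |V x| ≤ τ₀ * (4 * d + 1) := by
  have h1 := h fun y => if y = x then 1 else 0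
  have h2 : ∑ y ∈ Q, V y * (if y = x then (1 : ℝ) else 0) ^ 2 = V x := by
    rw [Finset.sum_eq_single x]
    · rw [if_pos rfl, one_pow, mul_one]
    · intro b _ hb
      rw [if_neg hb]
      ring
    · intro hn
      exact absurd hx hn
  rw [h2, Run7.h136.VI.q_single (J E δ) (fun k => J_neg E δ k)] at h1
  refine h1.trans (mul_le_mul_of_nonneg_left ?_ hτ)
  rw [one_pow, one_mul, inv_mul_le_iff₀ NN_pos]
  have h3 : ∀ k : T d L, J E δ k ≤ 4 * d + 1 := by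
    intro k
    have h4 : |adj k - E| ≤ 4 * d := by
      have h5 := adj_abs k
      have h6 : |adj k - E| ≤ |adj k| + |E| := abs_sub _ _
      linarith
    unfold J
    rw [Real.sqrt_le_iff]
    refine ⟨by positivity, ?_⟩
    have h7 : (adj k - E) ^ 2 ≤ (4 * d) ^ 2 := by
      rw [← sq_abs (adj k - E)]
      exact pow_le_pow_left₀ (abs_nonneg _) h4 2
    have h8 : δ ^ 2 ≤ 1 := by nlinarith
    have h9 : (0 : ℝ) ≤ d := Nat.cast_nonneg d
    nlinarith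
  calc ∑ k : T d L, J E δ k ≤ ∑ _k : T d L, ((4 * d + 1 : ℝ)) :=
        Finset.sum_le_sum fun k _ => h3 k
    _ = NN d L * (4 * d + 1) := by
        rw [Finset.sum_const, nsmul_eq_mul, Finset.card_univ, card_T]

end site

/-- **The data.** -/
theorem dat (hTL : S_TL) (hCELL : S_CELL) (d : ℕ) (hd : 3 ≤ d) (κ e : ℝ) (hκ0 : 0 < κ)
    (hκ1 : κ < 1 / 21) (he0 : 0 < e) (he1 : e ≤ 1 / 60) (C_Y c_t : ℝ) (hct : 0 < c_t) :
    ∃ KQ Kγ cc KK ct : ℝ, 0 < KQ ∧ 0 < Kγ ∧ 0 < cc ∧ 0 < KK ∧ 0 < ct ∧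
    ∃ s : ℝ, 0 < s ∧ s ≤ 1 / 5 ∧ ∀ σ : ℝ, 0 < |σ| → |σ| ≤ s → ∃ ℓ : ℕ, 1 ≤ ℓ ∧
    ∀ (n L : ℕ) [NeZero L] [NeZero n], 2 ≤ n → L = n * ℓ → ∀ (E τ : ℝ) (X : T d L → ℂ),
      |E| ≤ 2 * d →
      (∀ k, ‖X k - ((adj k : ℂ) - E - τ * Complex.I)‖ ≤ C_Y * |σ| ^ (2 + 2 * κ)) →
      (∀ k, c_t * |σ| ^ (2 + 2 * κ) * (|σ| ^ 4 / ((adj k - E) ^ 2 + |σ| ^ 4)) ≤ -(X k).im) →
    ∃ (cell : T d L → T d n) (χ : T d n → T d L → ℝ) (M : T d n → Finset (T d n))
      (G : T d n → Set (T d L → ℝ)),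
      Dat cell χ M ℓ G E τ (|σ| ^ (2 - e)) (ct * |σ| ^ (2 + 2 * κ + 2 * e)) σ
        (1 / (2 ^ (d + 1) * |σ|)) (1 / 2 * (|σ| ^ (2 - e)) ^ (9 / (7 * (d : ℝ))))
        (KQ * |σ| ^ (-(4 * (e / 7)) - (2 - e) * (5 / 7))) (Kγ * |σ| ^ (-(2 * (e / 7))))
        (|σ| ^ 130) (1 / (2 ^ (d + 1) * |σ|) * (4 * d + 1)) (cc * |σ| ^ 7) (KK * |σ| ^ 39) X ∧
      lw d L (1 / 2 * (|σ| ^ (2 - e)) ^ (9 / (7 * (d : ℝ)))) ≤ 2 * |σ| ^ ((2 - e) * (9 / 7)) := by
  obtain ⟨CQ, hCQ, hqb⟩ := Q.qb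
  set a : ℝ := e / 7 with ha
  have ha0 : 0 < a := by positivity
  have hea : 0 < e * a := by positivity
  have hd3 : (3 : ℝ) ≤ d := by exact_mod_cast hd
  set KQ : ℝ := 2 * CQ / a ^ 2 with hKQ
  have hKQ0 : 0 < KQ := by positivity
  have hC3 := C3_pos
  set Kγ : ℝ := (2 + 8 * C3) / a with hKγ
  have hKγ0 : 0 < Kγ := by positivity
  set P : ℕ := ⌈(3 * (d : ℝ) + 131) * 7 / (5 * e)⌉₊ with hP
  have hP1 : (3 * (d : ℝ) + 131) * 7 / (5 * e) ≤ P := Nat.le_ceil _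
  have hP2 : 3 * (d : ℝ) + 131 ≤ 5 * e / 7 * P := by
    rw [div_le_iff₀ (by positivity)] at hP1
    linarith
  have hP0 : P ≠ 0 := by
    intro h
    rw [h] at hP2
    norm_num at hP2
    linarith
  set cc : ℝ := c_t / (16 * (d : ℝ) ^ 2 + 1) with hcc
  have hcc0 : 0 < cc := by positivity
  set w1 : ℝ := (1 / 2 ^ (d + 1) * (4 * (d : ℝ) + 1)) ^ 2 with hw1
  have hw0 : 0 < w1 := by positivity
  set KK : ℝ := 4 * (cc ^ 2)⁻¹ * (1 + (cc ^ 2)⁻¹ * w1) with hKK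
  have hKK0 : 0 < KK := by positivity
  set ct : ℝ := min c_t 1 / 100 with hctd
  have hct0 : 0 < ct := by positivity
  have hct1 : 100 * ct ≤ c_t := by
    rw [hctd]
    linarith [min_le_left c_t 1]
  have hct2 : ct ≤ 1 := by
    rw [hctd]
    linarith [min_le_right c_t 1]
  set KP : ℝ := 2 * P * 4 ^ (d + 1) * Kγ with hKP
  obtain ⟨s1, hs1, H1⟩ := cmp_pow (KP ^ P * 2 ^ d) (5 * e / 7 * P - 3 * d) 130 1
    (by linarith) one_pos
  obtain ⟨s2, hs2, H2⟩ := cmp_pow (20 * C_Y) (2 + 2 * κ) (2 - e) 1 (by linarith) one_pos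
  obtain ⟨s3, hs3, H3⟩ := small_pow KK 39 1 (by norm_num) one_pos
  refine ⟨KQ, Kγ, cc, KK, ct, hKQ0, hKγ0, hcc0, hKK0, hct0,
    min (min s1 s2) (min s3 (min (1 / 5) (1 / (200 * d)))), by positivity,
    (min_le_right _ _).trans ((min_le_right _ _).trans (min_le_left _ _)), ?_⟩
  intro σ hσ hσs
  set x : ℝ := |σ| with hx
  have hxs1 : x ≤ s1 := hσs.trans ((min_le_left _ _).trans (min_le_left _ _))
  have hxs2 : x ≤ s2 := hσs.trans ((min_le_left _ _).trans (min_le_right _ _))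
  have hxs3 : x ≤ s3 := hσs.trans ((min_le_right _ _).trans (min_le_left _ _))
  have hx5 : x ≤ 1 / 5 :=
    hσs.trans ((min_le_right _ _).trans ((min_le_right _ _).trans (min_le_left _ _)))
  have hxd : x ≤ 1 / (200 * d) :=
    hσs.trans ((min_le_right _ _).trans ((min_le_right _ _).trans (min_le_right _ _)))
  have hx1 : x ≤ 1 := by linarith
  have hσx : σ ^ 2 = x ^ 2 := (sq_abs σ).symm
  have hxd' : 200 * d ≤ x⁻¹ := by
    rw [le_inv_comm₀ (by positivity) hσ]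
    rwa [one_div] at hxd
  set ℓ : ℕ := ⌈(x ^ 3)⁻¹⌉₊ with hℓ
  have hℓ1 : (x ^ 3)⁻¹ ≤ (ℓ : ℝ) := Nat.le_ceil _
  have hx3 : 1 ≤ (x ^ 3)⁻¹ := by
    rw [one_le_inv₀ (by positivity)]
    exact pow_le_one₀ hσ.le hx1
  have hℓ2 : (ℓ : ℝ) ≤ 2 * (x ^ 3)⁻¹ := by
    have := (Nat.ceil_lt_add_one (by positivity : 0 ≤ (x ^ 3)⁻¹)).le
    rw [← hℓ] at this
    linarith
  have hℓ3 : 1 ≤ ℓ := by
    have : (1 : ℝ) ≤ ℓ := hx3.trans hℓ1
    exact_mod_cast this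
  refine ⟨ℓ, hℓ3, ?_⟩
  intro n L _ _ hn hLn E τ X hE hnear hdis
  obtain ⟨cell, χ, M, hTl⟩ := hTL d L n ℓ hn hℓ3 hLn
  -- the parameters
  set δ : ℝ := x ^ (2 - e) with hδ
  have hδ0 : 0 < δ := Real.rpow_pos_of_pos hσ _
  have hδx : x ^ 2 ≤ δ := by
    rw [← Real.rpow_natCast, hδ]
    exact pow_cmp hσ hx1 (by push_cast; linarith)
  have hδx1 : δ ≤ x := by
    calc δ ≤ x ^ (1 : ℝ) := pow_cmp hσ hx1 (by linarith)
      _ = x := Real.rpow_one x
  have hδ1 : δ ≤ 1 := hδx1.trans hx1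
  have hδ2 : δ ≤ 1 / 2 := hδx1.trans (by linarith)
  set b : ℝ := 9 / (7 * d) with hb
  have hb0 : 0 < b := by positivity
  have hb1 : b ≤ 3 / 7 := by
    rw [hb, div_le_div_iff₀ (by positivity) (by norm_num)]
    linarith
  set θ : ℝ := 1 / 2 * δ ^ b with hθ
  have hθ0 : 0 < θ := by positivity
  have hδb : δ ^ b ≤ 1 := Real.rpow_le_one hδ0.le hδ1 hb0.le
  have hθ1 : θ ≤ 1 := by
    rw [hθ]
    linarith
  have hθx : 1 / 2 * x ≤ θ := by
    rw [hθ]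
    refine mul_le_mul_of_nonneg_left ?_ (by norm_num)
    rw [hδ, ← Real.rpow_mul hσ.le]
    calc x = x ^ (1 : ℝ) := (Real.rpow_one x).symm
      _ ≤ x ^ ((2 - e) * b) := pow_cmp hσ hx1 (by
          have : 0 < e * b := by positivity
          linarith)
  set τ₀ : ℝ := 1 / (2 ^ (d + 1) * x) with hτ
  have hτ0 : 0 < τ₀ := by positivity
  have hℓL : (ℓ : ℝ) ≤ L := by
    have h1 : ℓ ≤ L := by
      rw [hLn]
      exact Nat.le_mul_of_pos_left ℓ (by omega)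
    exact_mod_cast h1
  have hL1 : (x ^ 3)⁻¹ ≤ (L : ℝ) := hℓ1.trans hℓL
  have hL0 : (0 : ℝ) < L := lt_of_lt_of_le (by positivity) hL1
  have hxL : x ^ 3 * (L : ℝ) ≥ 1 := by
    have := mul_le_mul_of_nonneg_left hL1 (by positivity : 0 ≤ x ^ 3)
    rwa [mul_inv_cancel₀ (by positivity)] at this
  have hδℓ : x⁻¹ ≤ δ * ℓ := by
    calc x⁻¹ = x ^ 2 * (x ^ 3)⁻¹ := by field_simp
      _ ≤ δ * ℓ := mul_le_mul hδx hℓ1 (by positivity) hδ0.le
  -- logarithms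
  have hlog0 : 0 ≤ Real.log (1 / δ) := Real.log_nonneg (by
    rw [le_div_iff₀ hδ0]
    linarith)
  have hlog : Real.log (1 / δ) ≤ x ^ (-(2 * a)) / a := by
    refine (log_bd hδ0 ha0).trans ?_
    refine div_le_div_of_nonneg_right ?_ ha0.le
    rw [hδ, ← Real.rpow_mul hσ.le]
    exact pow_cmp hσ hx1 (by linarith)
  have hgg : gg δ ≤ Kγ * x ^ (-(2 * a)) := by
    unfold gg
    calc (2 + 8 * C3) * Real.log (1 / δ) ≤ (2 + 8 * C3) * (x ^ (-(2 * a)) / a) := by gcongr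
      _ = _ := by rw [hKγ]; ring
  have hsq : 1 / 2 * x ^ ((2 - e) * (5 / 7)) ≤ Real.sqrt (δ * θ) := by
    apply Real.le_sqrt_of_sq_le
    rw [mul_pow, ← Real.rpow_natCast (x ^ ((2 - e) * (5 / 7))), ← Real.rpow_mul hσ.le]
    have e1 : δ * θ = 1 / 2 * x ^ ((2 - e) * (1 + b)) := by
      rw [hθ, hδ, ← Real.rpow_mul hσ.le, mul_left_comm, ← Real.rpow_add hσ]
      congr 2
      ring
    rw [e1]
    have h2 : x ^ ((2 - e) * (5 / 7) * ((2 : ℕ) : ℝ)) ≤ x ^ ((2 - e) * (1 + b)) :=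
      pow_cmp hσ hx1 (by
        have : 0 ≤ (2 - e) * (3 / 7 - b) := mul_nonneg (by linarith) (by linarith)
        push_cast
        linarith)
    have h3 : 0 ≤ x ^ ((2 - e) * (5 / 7) * ((2 : ℕ) : ℝ)) := by positivity
    linarith
  set Q : ℝ := KQ * x ^ (-(4 * a) - (2 - e) * (5 / 7)) with hQ
  have hQ0 : 0 < Q := by positivity
  have hQb : CQ * Real.log (1 / δ) ^ 2 / Real.sqrt (δ * θ) ≤ Q := by
    have h1 : Real.log (1 / δ) ^ 2 ≤ (x ^ (-(2 * a)) / a) ^ 2 := pow_le_pow_left₀ hlog0 hlog 2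
    have h2 : 0 < 1 / 2 * x ^ ((2 - e) * (5 / 7)) := by positivity
    calc CQ * Real.log (1 / δ) ^ 2 / Real.sqrt (δ * θ) ≤
        CQ * (x ^ (-(2 * a)) / a) ^ 2 / (1 / 2 * x ^ ((2 - e) * (5 / 7))) := by gcongr
      _ = Q := by
          rw [hQ, hKQ, Real.rpow_sub hσ, div_pow, ← Real.rpow_natCast (x ^ (-(2 * a))),
            ← Real.rpow_mul hσ.le]
          have : -(2 * a) * ((2 : ℕ) : ℝ) = -(4 * a) := by push_cast; ring
          rw [this]
          have h3 : x ^ ((2 - e) * (5 / 7)) ≠ 0 := by positivity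
          field_simp
  -- the good events
  have hLδ : 1 / (L : ℝ) ≤ δ := by
    rw [div_le_iff₀ hL0]
    calc (1 : ℝ) ≤ x ^ 3 * L := hxL
      _ ≤ δ * L := by
          refine mul_le_mul_of_nonneg_right ?_ hL0.le
          refine le_trans ?_ hδx
          exact pow_le_pow_of_le_one hσ.le hx1 (by norm_num)
  have hcell := fun c : T d n => hCELL d L hd E δ τ₀ hLδ hδ2 hτ0 P hP0
    (Finset.univ.filter fun y => cell y = c)
  choose G hG1 hG2 hG3 hG4 using hcell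
  have hprob : ∀ c : T d n, (Γ (T d L)).real (G c)ᶜ ≤ x ^ 130 := by
    intro c
    refine (hG3 c).trans ?_
    have h1 : 2 * P * gg δ * δ⁻¹ / τ₀ ^ 2 ≤ KP * x ^ (5 * e / 7) := by
      have h2 : (τ₀ ^ 2)⁻¹ = 4 ^ (d + 1) * x ^ 2 := by
        rw [hτ]
        have h4 : (4 : ℝ) ^ (d + 1) = (2 ^ (d + 1)) ^ 2 := by
          rw [← pow_mul, mul_comm, pow_mul]
          norm_num
        rw [h4]
        field_simp
      have h3 : δ⁻¹ * x ^ 2 = x ^ e := by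
        rw [hδ, ← Real.rpow_neg hσ.le, ← Real.rpow_natCast, ← Real.rpow_add hσ]
        congr 1
        push_cast
        ring
      have h4 : x ^ (-(2 * a)) * x ^ e = x ^ (5 * e / 7) := by
        rw [← Real.rpow_add hσ]
        congr 1
        rw [ha]
        ring
      calc 2 * P * gg δ * δ⁻¹ / τ₀ ^ 2 = 2 * P * 4 ^ (d + 1) * gg δ * (δ⁻¹ * x ^ 2) := by
            rw [div_eq_mul_inv, h2]
            ring
        _ ≤ 2 * P * 4 ^ (d + 1) * (Kγ * x ^ (-(2 * a))) * (δ⁻¹ * x ^ 2) := by gcongr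
        _ = KP * (x ^ (-(2 * a)) * x ^ e) := by rw [h3, hKP]; ring
        _ = _ := by rw [h4]
    have h0 : 0 ≤ 2 * P * gg δ * δ⁻¹ / τ₀ ^ 2 := by
      have := (gg_pos δ hδ0 hδ2).le
      positivity
    have h5 : (((Finset.univ.filter fun y => cell y = c).card : ℕ) : ℝ) ≤
        2 ^ d * x ^ (-(3 * d) : ℝ) := by
      calc (((Finset.univ.filter fun y => cell y = c).card : ℕ) : ℝ) ≤ (ℓ : ℝ) ^ d := by
            exact_mod_cast hTl.card_cell c
        _ ≤ (2 * (x ^ 3)⁻¹) ^ d := pow_le_pow_left₀ (Nat.cast_nonneg _) hℓ2 d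
        _ = _ := by
            rw [mul_pow, inv_pow, ← pow_mul]
            congr 1
            rw [Real.rpow_neg hσ.le]
            congr 1
            rw [← Real.rpow_natCast]
            push_cast
            rfl
    calc (2 * P * gg δ * δ⁻¹ / τ₀ ^ 2) ^ P *
        (((Finset.univ.filter fun y => cell y = c).card : ℕ) : ℝ) ≤
        (KP * x ^ (5 * e / 7)) ^ P * (2 ^ d * x ^ (-(3 * d) : ℝ)) :=
          mul_le_mul (pow_le_pow_left₀ h0 h1 P) h5 (Nat.cast_nonneg _) (by positivity)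
      _ = KP ^ P * 2 ^ d * (x ^ (5 * e / 7 * P) * x ^ (-(3 * d) : ℝ)) := by
          rw [mul_pow KP, ← Real.rpow_natCast (x ^ (5 * e / 7)), ← Real.rpow_mul hσ.le]
          ring
      _ = KP ^ P * 2 ^ d * x ^ (5 * e / 7 * P - 3 * d) := by
          rw [← Real.rpow_add hσ, sub_eq_add_neg]
      _ ≤ 1 * x ^ (130 : ℝ) := H1 x hσ hxs1
      _ = x ^ 130 := by
          rw [one_mul]
          exact_mod_cast Real.rpow_natCast x 130
  refine ⟨cell, χ, M, G, ?_, ?_⟩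
  · refine ⟨hTl, by omega, ⟨hG1, fun c V V' h => hG2 c V V' fun y hy =>
      h y (Finset.mem_filter.1 hy).2, hprob, fun V y h => ?_⟩, hδ0, by positivity, ?_, hτ0.le, ?_,
      ?_, fun k => ?_, fun k => ?_, hG4, hQ0.le, fun p hp => ?_, ?_, by positivity, by positivity,
      by positivity, fun k => ?_, ?_, ?_⟩
    · exact site_bd hδ0 hδ2 hE hτ0.le (hG4 (cell y) V h)
        (Finset.mem_filter.2 ⟨Finset.mem_univ y, rfl⟩)
    · calc ct * x ^ (2 + 2 * κ + 2 * e) ≤ 1 * x ^ (2 + 2 * κ + 2 * e) := by gcongr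
        _ = x ^ (2 + 2 * κ + 2 * e) := one_mul _
        _ ≤ δ := pow_cmp hσ hx1 (by linarith)
    · rw [← hx, hτ]
      apply le_of_eq
      rw [pow_succ]
      field_simp
    · exact hxd'.trans hδℓ
    · refine (hnear k).trans ?_
      have h1 := H2 x hσ hxs2
      rw [one_mul] at h1
      linarith
    · refine le_trans ?_ (hdis k)
      set u : ℝ := (adj k - E) ^ 2 with hu
      have hu0 : 0 ≤ u := sq_nonneg _
      have h1 : x ^ 4 ≤ 100 * δ ^ 2 := by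
        have h2 : x ^ 4 ≤ δ ^ 2 := by
          calc x ^ 4 = (x ^ 2) ^ 2 := by ring
            _ ≤ δ ^ 2 := pow_le_pow_left₀ (by positivity) hδx 2
        nlinarith [sq_nonneg δ]
      have h2 : x ^ (2 + 2 * κ + 2 * e) * δ ^ 2 = x ^ (2 + 2 * κ) * x ^ 4 := by
        rw [hδ, ← Real.rpow_natCast (x ^ (2 - e)), ← Real.rpow_mul hσ.le, ← Real.rpow_add hσ,
          ← Real.rpow_natCast x, ← Real.rpow_add hσ]
        congr 1
        push_cast
        ring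
      rw [← mul_div_assoc, ← mul_div_assoc]
      calc ct * x ^ (2 + 2 * κ + 2 * e) * (100 * δ ^ 2) / (u + 100 * δ ^ 2) =
            100 * ct * (x ^ (2 + 2 * κ + 2 * e) * δ ^ 2) / (u + 100 * δ ^ 2) := by ring
        _ = 100 * ct * (x ^ (2 + 2 * κ) * x ^ 4) / (u + 100 * δ ^ 2) := by rw [h2]
        _ ≤ c_t * (x ^ (2 + 2 * κ) * x ^ 4) / (u + x ^ 4) := by gcongr
        _ = c_t * x ^ (2 + 2 * κ) * x ^ 4 / (u + x ^ 4) := by ring
    · have h1 := hqb d L hd θ δ E hθ0 hθ1 hδ0 hδ2 ?_ p hp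
      · refine h1.trans ?_
        exact mul_le_mul_of_nonneg_right hQb NN_pos.le
      · rw [div_le_iff₀ hδ0]
        calc (64 : ℝ) ≤ 200 * d := by linarith
          _ ≤ x⁻¹ := hxd'
          _ ≤ δ * ℓ := hδℓ
          _ ≤ δ * L := by gcongr
          _ = L * δ := mul_comm _ _
    · have h1 := Pool.Agent.W788.MFP.Dos.green (L := L) d hd E δ hLδ hδ2
      exact h1.trans hgg
    · have h1 : (adj k - E) ^ 2 ≤ 16 * (d : ℝ) ^ 2 := by
        have h4 : |adj k - E| ≤ 4 * d := by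
          have h5 := adj_abs k
          have h6 : |adj k - E| ≤ |adj k| + |E| := abs_sub _ _
          linarith
        rw [← sq_abs (adj k - E)]
        calc |adj k - E| ^ 2 ≤ (4 * (d : ℝ)) ^ 2 := pow_le_pow_left₀ (abs_nonneg _) h4 2
          _ = _ := by ring
      have h2 : x ^ 4 ≤ 1 := pow_le_one₀ hσ.le hx1
      have h3 : cc * x ^ 7 ≤ c_t * x ^ (2 + 2 * κ) * (x ^ 4 / ((adj k - E) ^ 2 + x ^ 4)) := by
        have h4 : x ^ 7 ≤ x ^ (2 + 2 * κ) * x ^ 4 := by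
          rw [← Real.rpow_natCast x 7, ← Real.rpow_natCast x 4, ← Real.rpow_add hσ]
          exact pow_cmp hσ hx1 (by push_cast; linarith)
        calc cc * x ^ 7 ≤ cc * (x ^ (2 + 2 * κ) * x ^ 4) := by gcongr
          _ = c_t * (x ^ (2 + 2 * κ) * x ^ 4) / (16 * (d : ℝ) ^ 2 + 1) := by rw [hcc]; ring
          _ ≤ c_t * (x ^ (2 + 2 * κ) * x ^ 4) / ((adj k - E) ^ 2 + x ^ 4) := by gcongr
          _ = _ := by ring
      have h4 := h3.trans (hdis k)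
      linarith
    · have h1 : (cc * x ^ 7) ^ 2 = cc ^ 2 * x ^ 14 := by ring
      have h2 : (τ₀ * (4 * (d : ℝ) + 1)) ^ 2 = w1 * (x ^ 2)⁻¹ := by
        rw [hτ, hw1]
        field_simp
      have h3 : Real.sqrt (3 * x ^ 130) ≤ 2 * x ^ 65 := by
        rw [Real.sqrt_le_iff]
        refine ⟨by positivity, ?_⟩
        have h4 : (2 * x ^ 65) ^ 2 = 4 * x ^ 130 := by ring
        rw [h4]
        have : 0 ≤ x ^ 130 := by positivity
        linarith
      rw [h1, h2, hσx]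
      have h5 : x ^ 53 ≤ x ^ 39 := pow_le_pow_of_le_one hσ.le hx1 (by norm_num)
      calc (cc ^ 2 * x ^ 14)⁻¹ * x ^ 2 * Real.sqrt (3 * x ^ 130) *
            (2 * (1 + (cc ^ 2 * x ^ 14)⁻¹ * x ^ 2 * (w1 * (x ^ 2)⁻¹)))
          ≤ (cc ^ 2 * x ^ 14)⁻¹ * x ^ 2 * (2 * x ^ 65) *
            (2 * (1 + (cc ^ 2 * x ^ 14)⁻¹ * x ^ 2 * (w1 * (x ^ 2)⁻¹))) := by gcongr
        _ = 4 * (cc ^ 2)⁻¹ * (x ^ 53 + (cc ^ 2)⁻¹ * w1 * x ^ 39) := by
            field_simp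
            ring
        _ ≤ 4 * (cc ^ 2)⁻¹ * (x ^ 39 + (cc ^ 2)⁻¹ * w1 * x ^ 39) := by gcongr
        _ = KK * x ^ 39 := by rw [hKK]; ring
    · have h1 := H3 x hσ hxs3
      have h2 : x ^ (39 : ℝ) = x ^ 39 := by exact_mod_cast Real.rpow_natCast x 39
      rwa [h2] at h1
  · have h1 := s_low d L θ hθ0.le hθ1 ?_
    · unfold lw
      rw [inv_mul_le_iff₀ NN_pos]
      refine h1.trans (le_of_eq ?_)
      have h2 : (2 * θ) ^ d = x ^ ((2 - e) * (9 / 7)) := by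
        have h3 : 2 * θ = δ ^ b := by rw [hθ]; ring
        rw [h3, hδ, ← Real.rpow_natCast, ← Real.rpow_mul hσ.le, ← Real.rpow_mul hσ.le]
        congr 1
        rw [hb]
        field_simp
      rw [h2]
      ring
    · have h2 : x ^ 3 ≤ 1 / 2 * x := by
        have h3 : x ^ 3 = x ^ 2 * x := by ring
        rw [h3]
        refine mul_le_mul_of_nonneg_right ?_ hσ.le
        nlinarith
      calc (1 : ℝ) ≤ x ^ 3 * L := hxL
        _ ≤ θ * L := mul_le_mul_of_nonneg_right (h2.trans hθx) hL0.le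

end Run7.h514.VI
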