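import Pool.Agent.Run7.h47.V.Iface2
import Pool.Agent.N659.HB.FinG

/-!
# Assembly of the theorem

For `MP_1906c1_mp` (project VI of helper47), part FIN.
-/

set_option autoImplicit false

namespace Run7.h514.VI

open MeasureTheory Filter Pool.Agent.W792.LL Pool.Agent.W792.WA Pool.Agent.N659.HB
open Pool.Agent.Run7.h47.V ProbabilityTheory
open scoped Topology ENNReal

noncomputable section

/-- The theorem for Gaussian disorder. -/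
def S_FIN : Prop :=
  ∀ (d : ℕ), 3 ≤ d → ∃ Cd : ℝ, 0 < Cd ∧ ∀ a κ : ℝ, 0 < a → a < 2 * d → κ < 1 / 21 →
    ∃ sg₀ : ℝ, 0 < sg₀ ∧ sg₀ < 1 ∧ ∀ sg : ℝ, 0 < sg → sg ≤ sg₀ →
      ∃ b : C(ℝ, ℝ), (∀ t, |b t| ≤ sg ^ (2 + κ)) ∧
      (∀ x : Fin d → ℤ,
        ‖UnitAddTorus.mFourierCoeff (fun k : UnitAddTorus (Fin d) => ((b (adjm d k) : ℝ) : ℂ)) x‖
          ≤ Cd * sg ^ (2 + κ) / (1 + ‖x‖) ^ ((d : ℝ) / 3)) ∧
      ∀ᵐ v ∂(Pn (gaussianReal 0 1) (Fin d → ℤ)), ACIK (adjm d + b.comp (adjm d)) sg v (-a) a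

/-- The theorem, `κ` positive. -/
theorem fin0 (hG : S_GAPV) (hT : S_TRG) (hC : S_CHK) (hAe : S_AEQK) (hAf : S_AFF) (hW : S_WS)
    (hψ : ∃ ψ : C(UnitAddCircle, ℝ), IsSemi ψ ∧ ∀ d : ℕ, 0 < d → ∃ C : ℝ, 0 < C ∧
      ∀ (M : ℕ) (x : Fin d → ℤ),
      ‖UnitAddTorus.mFourierCoeff (fun k : UnitAddTorus (Fin d) =>
        ((ψ ((M * lap d k / (2 * Real.pi) : ℝ) : UnitAddCircle) : ℝ) : ℂ)) x‖
        ≤ C / (1 + ‖x‖) ^ ((d : ℝ) / 3)) (d : ℕ) (hd : 3 ≤ d) : ∃ Cd : ℝ, 0 < Cd ∧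
    ∀ a κ : ℝ, 0 < a → a < 2 * d → 0 < κ → κ < 1 / 21 →
    ∃ sg₀ : ℝ, 0 < sg₀ ∧ sg₀ < 1 ∧ ∀ sg : ℝ, 0 < sg → sg ≤ sg₀ →
      ∃ b : C(ℝ, ℝ), (∀ t, |b t| ≤ sg ^ (2 + κ)) ∧
      (∀ x : Fin d → ℤ,
        ‖UnitAddTorus.mFourierCoeff (fun k : UnitAddTorus (Fin d) => ((b (adjm d k) : ℝ) : ℂ)) x‖
          ≤ Cd * sg ^ (2 + κ) / (1 + ‖x‖) ^ ((d : ℝ) / 3)) ∧
      ∀ᵐ v ∂(Pn (gaussianReal 0 1) (Fin d → ℤ)), ACIK (adjm d + b.comp (adjm d)) sg v (-a) a := by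
  have hd0 : 0 < d := by omega
  have hd1 : (0 : ℝ) < d := by exact_mod_cast hd0
  obtain ⟨ψ, hψ1, hψ2⟩ := hψ
  obtain ⟨Cd, hCd, hCd1⟩ := hψ2 d hd0
  refine ⟨Cd, hCd, fun a κ ha ha2 hκ hκ1 => ?_⟩
  obtain ⟨sg₀, hl0, hl1, hlam⟩ := hG ψ hψ1 d hd a ha ha2 κ hκ hκ1
  refine ⟨sg₀, hl0, hl1, fun sg hp hle => ?_⟩
  obtain ⟨σ, hσ, hgap⟩ := hlam sg hp hle
  set γ : ℝ := 2 * d / a with hγdef
  have hγ : 0 < γ := by positivity
  have hgs : 0 < γ * sg := by positivity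
  set l : ℝ := sg ^ (2 + κ) / 2 with hl
  have hlpos : 0 < l := by
    have := Real.rpow_pos_of_pos hp (2 + κ)
    positivity
  have h2l : 2 * l = sg ^ (2 + κ) := by rw [hl]; ring
  set m : ℝ := -a with hm
  have hm2 : Measurable fun x : ℝ => (γ * sg) * x := by fun_prop
  have hP2 : IsProbabilityMeasure ((gaussianReal 0 1).map fun x => (γ * sg) * x) :=
    Measure.isProbabilityMeasure_map hm2.aemeasurable
  have hmap : ((gaussianReal 0 1).map fun x => (γ * sg) * x) =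
      gaussianReal 0 ⟨(γ * sg) ^ 2, sq_nonneg _⟩ := by
    have h := gaussianReal_map_const_mul (μ := 0) (v := 1) (γ * sg)
    rw [mul_zero, mul_one] at h
    exact h
  obtain ⟨X, -, hX1, hX2, -⟩ := hT (γ * sg) 3 hgs le_rfl
  have hvr : 0 < vr ((gaussianReal 0 1).map fun x => (γ * sg) * x) := by
    rw [hmap, ← hX1]
    exact hX2
  have hgap' : ∀ (μ : Measure ℝ) [IsProbabilityMeasure μ],
      μ = gaussianReal 0 ⟨(γ * sg) ^ 2, sq_nonneg _⟩ →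
      ∀ (ρ' : Measure ℝ) [IsProbabilityMeasure ρ'],
      ρ' (Set.Icc (-((γ * l) / 8)) ((γ * l) / 8))ᶜ = 0 →
      ∀ z ∈ Zs d, ∀ s, IsFix μ ((lev ψ (γ * l)).conv ρ')
        (wz (γ • (adjm d - ContinuousMap.const _ m)) z) s → ‖s‖ ≤ 1 - σ := by
    intro μ _ hμ ρ' _ hρ z hz s' hs'
    subst hμ
    exact hgap ρ' hρ z hz s' hs'
  obtain ⟨b, hb1', hb2⟩ := of_gapK hC hAe hAf hψ1 hd0 (adjm d) (gaussianReal 0 1) γ sg l m hγ hp
    hlpos hvr hσ (hgap' _ hmap)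
  set f : C(ℝ, ℝ) := ⟨fun t => 2 * (d : ℝ) - t, by fun_prop⟩ with hf
  refine ⟨b.comp f, fun t => ?_, fun x => ?_, ?_⟩
  · rw [← h2l]
    exact G16.IsSum.bound hψ1.bound hb1' _
  · have h1 := hW d ψ Cd (2 * l) b hd0 hCd.le (by positivity) hCd1 hb1' x
    have e : (fun k : UnitAddTorus (Fin d) => (((b.comp f) (adjm d k) : ℝ) : ℂ))
        = fun k => ((b (lap d k) : ℝ) : ℂ) := by
      funext k
      have : f (adjm d k) = lap d k := by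
        simp only [hf, adjm, ContinuousMap.coe_mk, ContinuousMap.sub_apply,
          ContinuousMap.const_apply]
        ring
      rw [ContinuousMap.comp_apply, this]
    rw [e]
    refine h1.trans (le_of_eq ?_)
    rw [h2l]; ring
  · have e3 : m + 4 * d / γ = a := by
      rw [hγdef, hm]; field_simp; ring
    have e4 : (b.comp f).comp (adjm d) = gK b d := by
      ext k
      have : f (adjm d k) = lap d k := by
        simp only [hf, adjm, ContinuousMap.coe_mk, ContinuousMap.sub_apply,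
          ContinuousMap.const_apply]
        ring
      simp only [gK, ContinuousMap.comp_apply]
      rw [← this]
    rw [e4]
    rw [e3] at hb2
    exact hb2

/-- **The theorem.** -/
theorem t_FIN (hG : S_GAPV) (hT : S_TRG) (hC : S_CHK) (hAe : S_AEQK) (hAf : S_AFF) (hW : S_WS)
    (hψ : ∃ ψ : C(UnitAddCircle, ℝ), IsSemi ψ ∧ ∀ d : ℕ, 0 < d → ∃ C : ℝ, 0 < C ∧
      ∀ (M : ℕ) (x : Fin d → ℤ),
      ‖UnitAddTorus.mFourierCoeff (fun k : UnitAddTorus (Fin d) =>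
        ((ψ ((M * lap d k / (2 * Real.pi) : ℝ) : UnitAddCircle) : ℝ) : ℂ)) x‖
        ≤ C / (1 + ‖x‖) ^ ((d : ℝ) / 3)) : S_FIN := by
  intro d hd
  obtain ⟨Cd, hCd, H⟩ := fin0 hG hT hC hAe hAf hW hψ d hd
  refine ⟨Cd, hCd, fun a κ ha ha2 hκ => ?_⟩
  obtain ⟨s₀, h0, h1, H1⟩ := H a (max κ (1 / 50)) ha ha2 (lt_max_of_lt_right (by norm_num))
    (max_lt hκ (by norm_num))
  refine ⟨s₀, h0, h1, fun sg hl hle => ?_⟩
  obtain ⟨b, hb1, hb2, hb3⟩ := H1 sg hl hle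
  have hmono : sg ^ (2 + max κ (1 / 50)) ≤ sg ^ (2 + κ) :=
    Real.rpow_le_rpow_of_exponent_ge hl (hle.trans h1.le) (by linarith [le_max_left κ (1 / 50)])
  refine ⟨b, fun t => (hb1 t).trans hmono, fun x => (hb2 x).trans ?_, hb3⟩
  gcongr

end

end Run7.h514.VI
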