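import Pool.Agent.Run7.h514.VI.OneK
import Pool.Agent.Run7.h47.V.Iface2

/-!
# The gap, from the self-energy on the lattice

For `MP_1906c1_mp` (project VI of helper47), part GAPV.
-/

set_option autoImplicit false

namespace Run7.h514.VI

open MeasureTheory Filter Pool.Agent.W792.LL Pool.Agent.W792.WA Pool.Agent.N659.HB
open Pool.Agent.N163.HB.GAPA Pool.Agent.Run7.h47.V ProbabilityTheory
open scoped Topology ENNReal

noncomputable section

/-- Smallness of `x`. -/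
theorem small (κ c b : ℝ) (hκ : 0 < κ) (hc : 0 < c) (hb : 0 < b) :
    ∃ s : ℝ, 0 < s ∧ s < 1 ∧ ∀ x : ℝ, 0 < x → x ≤ s → x ^ κ ≤ c ∧ x ^ 2 ≤ b := by
  refine ⟨min (min (c ^ (1 / κ)) b) (1 / 2), ?_, ?_, ?_⟩
  · have := Real.rpow_pos_of_pos hc (1 / κ)
    positivity
  · exact (min_le_right _ _).trans_lt (by norm_num)
  · intro x hx hxs
    have h1 : x ≤ c ^ (1 / κ) := hxs.trans ((min_le_left _ _).trans (min_le_left _ _))
    have h2 : x ≤ b := hxs.trans ((min_le_left _ _).trans (min_le_right _ _))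
    have h3 : x ≤ 1 / 2 := hxs.trans (min_le_right _ _)
    constructor
    · calc x ^ κ ≤ (c ^ (1 / κ)) ^ κ := Real.rpow_le_rpow hx.le h1 hκ.le
        _ = c := by
            rw [← Real.rpow_mul hc.le, one_div, inv_mul_cancel₀ hκ.ne', Real.rpow_one]
    · nlinarith

/-- The gap from the self-energy on the lattice. -/
theorem t_GAPV : S_LAT → S_ZR → S_LV → S_UX → S_CX → S_FIX → S_TRG → S_GAPV := by
  intro hLAT hZR hLV hUX hCX hFIX hTRG ψ hψ d hd a ha had κ hκ hκ1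
  have hd0 : (0 : ℝ) < d := by
    have : 0 < d := by omega
    exact_mod_cast this
  obtain ⟨CS, cS, C₂, hCS, hcS, hcC, hC₂, hLAT⟩ := hLAT d hd ((a + 2 * d) / 2) (by linarith)
    (by linarith)
  obtain ⟨s₀, hs0, hs1, hLAT⟩ := hLAT κ hκ hκ1 (2 / cS) (cS / (128 * (2 + CS) ^ 2))
    (cS ^ 2 / (128 * (C₂ + 2 + CS) ^ 2)) (by positivity) (by positivity) (by positivity)
  obtain ⟨s₁, hs2, hs3, hsm⟩ := small κ (2 * cS / 9) ((2 * d - a) / 2) hκ (by positivity)
    (by linarith)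
  refine ⟨min s₀ s₁, lt_min hs0 hs2, (min_le_right _ _).trans_lt hs3, ?_⟩
  intro x hx hxs
  obtain ⟨hx1, hx2⟩ := hsm x hx (hxs.trans (min_le_right _ _))
  have hx01 : x ≤ 1 := hxs.trans ((min_le_right _ _).trans hs3.le)
  suffices H : ∀ γ r : ℝ, γ = 2 * d / a → r = γ * (x ^ (2 + κ) / 2) →
      ∃ g : ℝ, 0 < g ∧ ∀ (ρ' : Measure ℝ) [IsProbabilityMeasure ρ'],
        ρ' (Set.Icc (-(r / 8)) (r / 8))ᶜ = 0 →
        ∀ z ∈ Zs d, ∀ s', IsFix (gaussianReal 0 ⟨(γ * x) ^ 2, sq_nonneg _⟩)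
          ((lev ψ r).conv ρ') (wz (γ • (adjm d - ContinuousMap.const _ (-a))) z) s' →
          ‖s'‖ ≤ 1 - g from H _ _ rfl rfl
  intro γ r hγd hr
  have hγ : 0 < γ := by rw [hγd]; positivity
  have hLx := hLAT x hx (hxs.trans (min_le_left _ _)) γ hγ
  clear hLAT
  obtain ⟨u, hu⟩ : ∃ u : ℝ, u = x ^ κ := ⟨_, rfl⟩
  have hu0 : 0 < u := by rw [hu]; exact Real.rpow_pos_of_pos hx κ
  have hu1 : u ≤ 1 := by rw [hu]; exact Real.rpow_le_one hx.le hx01 hκ.le
  have e1 : x ^ (2 + κ) = x ^ 2 * u := by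
    rw [Real.rpow_add hx, hu, Real.rpow_two]
  have e2 : x ^ (2 + 2 * κ) = x ^ 2 * u ^ 2 := by
    rw [Real.rpow_add hx, hu, Real.rpow_two, mul_comm 2 κ, Real.rpow_mul hx.le, Real.rpow_two]
  rw [← hu] at hx1
  rw [e2] at hLx
  rw [e1] at hr
  have hr0 : 0 < r := by rw [hr]; positivity
  obtain ⟨η, hη⟩ : ∃ η : ℝ, η = γ * (cS * x ^ 2) := ⟨_, rfl⟩
  obtain ⟨R, hR⟩ : ∃ R : ℝ, R = γ * (CS * x ^ 2) := ⟨_, rfl⟩
  have hη0 : 0 < η := by rw [hη]; positivity
  have hηR : η ≤ R := by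
    rw [hη, hR]
    exact mul_le_mul_of_nonneg_left (mul_le_mul_of_nonneg_right hcC (by positivity)) hγ.le
  have hR0 : 0 < R := lt_of_lt_of_le hη0 hηR
  obtain ⟨zr1, zr2, zr3, zr4⟩ := hZR d R η hη0 hηR
  refine ⟨2 * η / (R + 1) ^ 2, by positivity, ?_⟩
  intro ρ' _ hρ' z hz s hs0
  suffices h : s ∈ ZR d R η from (zr3 s h).1
  obtain ⟨hz1, hz2, hz3, hz4⟩ := hz
  have hvr : 0 < vr (gaussianReal 0 ⟨(γ * x) ^ 2, sq_nonneg _⟩) := by
    obtain ⟨Y, Y', hY, hY1, -⟩ := hTRG (γ * x) 3 (by positivity) le_rfl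
    rw [hY] at hY1
    exact hY1
  have hprob : IsProbabilityMeasure (lev ψ r) := lev_prob ψ _
  have hsupp : ((lev ψ r).conv ρ') (Set.Icc (-(r + r / 8)) (r + r / 8))ᶜ = 0 :=
    conv_supp _ _ (lev_supp hψ hr0) hρ'
  obtain ⟨K, hK⟩ : ∃ K : C(UnitAddTorus (Fin d), ℝ),
      K = γ • (adjm d - ContinuousMap.const _ (-a)) := ⟨_, rfl⟩
  rw [← hK] at hs0
  have hKk : ∀ k, K k = γ * (adjm d k + a) := by
    intro k
    rw [hK]
    show γ * (adjm d k - -a) = γ * (adjm d k + a)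
    ring
  obtain ⟨q0, hq0, hq1, hq⟩ := hCX.2.2.1 (r + r / 8) (‖K‖ + ‖z‖) z.im hz3
  refine (hFIX (gaussianReal 0 ⟨(γ * x) ^ 2, sq_nonneg _⟩) d ((lev ψ r).conv ρ') (r + r / 8) q0
    (wz K z) hvr hsupp (hCX.2.2.2 d K z hz3.le) hq0 hq1 ?_).2.2
    (ZR d R η) zr1 zr2 (fun s hs => hs.1) ?_ s hs0
  · intro k a ha
    refine hq _ a ?_ ?_ (abs_le.2 ha)
    · refine (norm_sub_le _ _).trans ?_
      rw [Complex.norm_real]
      linarith [K.norm_coe_le_norm k]
    · simp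
  clear hs0 s
  intro s hs
  obtain ⟨-, S, hS⟩ := zr3 s hs
  -- the energy
  obtain ⟨E, hE⟩ : ∃ E : ℝ, E = z.re / γ - a := ⟨_, rfl⟩
  obtain ⟨τ, hτ⟩ : ∃ τ : ℝ, τ = z.im / γ := ⟨_, rfl⟩
  have hτ0 : 0 < τ := by rw [hτ]; positivity
  have hγ1 : 1 ≤ γ := by
    rw [hγd, le_div_iff₀ ha]
    linarith
  have hτ1 : τ ≤ 1 := by
    rw [hτ, div_le_one hγ]
    linarith
  have hEa : |E| ≤ a := by
    have h1 : 0 ≤ z.re / γ := by positivity
    have h2 : z.re / γ ≤ 2 * a := by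
      rw [div_le_iff₀ hγ, hγd]
      have : 2 * a * (2 * d / a) = 4 * d := by
        field_simp
        norm_num
      linarith
    rw [hE, abs_le]
    constructor <;> linarith
  obtain ⟨m, hm, hexp⟩ := bet_exp ((lev ψ r).conv ρ') (A := r + r / 8) (by positivity) hsupp
  have hE1 : |E - m / γ| ≤ (a + 2 * d) / 2 := by
    have h1 : |m / γ| ≤ x ^ 2 := by
      rw [abs_div, abs_of_pos hγ, div_le_iff₀ hγ]
      refine hm.trans ?_
      rw [hr]
      have h1 : γ * x ^ 2 * u ≤ γ * x ^ 2 * 1 := mul_le_mul_of_nonneg_left hu1 (by positivity)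
      have h2 : 0 < γ * x ^ 2 := by positivity
      nlinarith
    refine (abs_sub _ _).trans ?_
    linarith
  have hwr : ∀ k, ((K k : ℂ) - z).re = γ * (adjm d k - E) := by
    intro k
    rw [Complex.sub_re, Complex.ofReal_re, hKk, hE]
    field_simp
    ring
  have hwi : ∀ k, ((K k : ℂ) - z).im = -(γ * τ) := by
    intro k
    rw [Complex.sub_im, Complex.ofReal_im, hτ]
    field_simp
    ring
  have hone := fun k => one_k (C₂ := C₂) hLV hUX hψ hγ hx hu0 hu1 hcS hcC hC₂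
    (by linarith) hr ρ' hρ' hm hexp hτ0 (hwr k) (hwi k) (by rw [← hR]; exact (hS k).2.1)
    (by rw [← hη]; exact (hS k).2.2)
  -- continuity
  have hKc : Continuous fun k => ((K k : ℂ) - z) :=
    (Complex.continuous_ofReal.comp K.continuous).sub continuous_const
  have htc : Continuous fun k => ((K k : ℂ) - z) + S k := hKc.add S.continuous
  have hβc : Continuous fun k => bet ((lev ψ r).conv ρ') (((K k : ℂ) - z) + S k) := by
    have hle : ∀ k k', dist (bet ((lev ψ r).conv ρ') (((K k : ℂ) - z) + S k))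
        (bet ((lev ψ r).conv ρ') (((K k' : ℂ) - z) + S k')) ≤
        dist (((K k : ℂ) - z) + S k) (((K k' : ℂ) - z) + S k') / η ^ 2 := by
      intro k k'
      have hi : ∀ k, (((K k : ℂ) - z) + S k).im ≤ -η := by
        intro k
        rw [Complex.add_im, hwi]
        have : 0 < γ * τ := by positivity
        linarith [(hS k).2.2]
      have h1 := (hLV ψ hψ r ρ' hr0 hρ' (((K k : ℂ) - z) + S k)
        (by linarith [hi k])).2.2.2.2.2 (((K k' : ℂ) - z) + S k') (by linarith [hi k'])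
      rw [dist_eq_norm, dist_eq_norm]
      refine h1.trans ?_
      apply div_le_div_of_nonneg_left (norm_nonneg _) (by positivity)
      have h3 := hi k
      have h4 := hi k'
      nlinarith
    rw [continuous_iff_continuousAt]
    intro k0
    rw [ContinuousAt, tendsto_iff_dist_tendsto_zero]
    refine squeeze_zero (fun k => dist_nonneg) (fun k => hle k k0) ?_
    have h3 : Tendsto (fun k => dist (((K k : ℂ) - z) + S k) (((K k0 : ℂ) - z) + S k0))
        (𝓝 k0) (𝓝 0) := tendsto_iff_dist_tendsto_zero.1 (htc.tendsto k0)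
    simpa using h3.div_const (η ^ 2)
  have hXc : Continuous fun k =>
      (1 / bet ((lev ψ r).conv ρ') (((K k : ℂ) - z) + S k) - S k) / (γ : ℂ) :=
    ((continuous_const.div hβc fun k => (hone k).1).sub S.continuous).div_const _
  obtain ⟨X, hX⟩ : ∃ X : C(UnitAddTorus (Fin d), ℂ), ∀ k, X k =
      (1 / bet ((lev ψ r).conv ρ') (((K k : ℂ) - z) + S k) - S k) / (γ : ℂ) :=
    ⟨⟨_, hXc⟩, fun k => rfl⟩
  have hγC : (γ : ℂ) ≠ 0 := by
    exact_mod_cast hγ.ne'
  have hUUX : UU ((lev ψ r).conv ρ') (wz K z) s = toC fun k => cayx ((γ : ℂ) * X k) 0 := by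
    unfold UU
    congr 1
    funext k
    rw [hX k, mul_div_cancel₀ _ hγC, (hS k).1]
    exact (hone k).2.1
  have hCC : CC x (E - m / γ) τ (2 / cS * (x ^ 2 * u ^ 2))
      (cS / (128 * (2 + CS) ^ 2) * (x ^ 2 * u ^ 2)) (cS ^ 2 / (128 * (C₂ + 2 + CS) ^ 2)) C₂ X := by
    refine ⟨?_, ?_, ?_, ?_⟩
    · intro k
      rw [hX k]
      exact (hone k).2.2.1
    · intro k
      rw [hX k]
      exact (hone k).2.2.2.1
    · intro k
      rw [hX k]
      exact (hone k).2.2.2.2.1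
    · rcases le_or_gt (x ^ 2) τ with h | h
      · exact Or.inl h
      · refine Or.inr fun k hk => ?_
        rw [hX k]
        rcases (hone k).2.2.2.2.2 with h1 | h1
        · exact absurd h1 (not_le.2 h)
        · exact h1 hk
  obtain ⟨S', hS'⟩ := hLx (E - m / γ) τ X hE1 hτ0.le hτ1 hCC
  rw [hUUX]
  exact zr4 _ S' fun k => ⟨(hS' k).1, by rw [hR]; exact (hS' k).2.1, by rw [hη]; exact (hS' k).2.2⟩

end

end Run7.h514.VI
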