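import Pool.Agent.Run7.h514.VI.FIN
import Pool.Agent.Run7.h514.VI.GAPV
import Pool.Agent.Run7.h524.VI.Tor
import Pool.Agent.Run7.h524.VI.Lat
import Pool.Agent.Run7.h298.VI.SC
import Pool.Agent.Run7.h824.V.Ibp
import Pool.Agent.Run7.h483.VI.TRF
import Pool.Agent.N659.HB.AllG

/-!
# Project VI: the theorem from the bound `S_BND`
-/

set_option autoImplicit false

namespace Run7.h514.VI

open Pool.Agent.W792.LL Pool.Agent.W792.WA Pool.Agent.N659.HB Pool.Agent.Run7.h47.V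

theorem tor (h : S_BND) : S_TOR :=
  Pool.Agent.Run7.h524.VI.t_TOR h Pool.Agent.Run7.h824.V.t_IBP Pool.Agent.Run7.h298.VI.sc

theorem lat (h : S_BND) : S_LAT :=
  Pool.Agent.Run7.h524.VI.t_LAT Pool.Agent.W792.WA.Al.psi Pool.Agent.W792.WA.Al.cx (tor h)
    Pool.Agent.Run7.h483.VI.t_TRF

theorem gapv (h : S_BND) : S_GAPV :=
  t_GAPV (lat h) Pool.Agent.N659.HB.Al.zr Pool.Agent.N659.HB.Al.lv Pool.Agent.N659.HB.Al.ux
    Pool.Agent.W792.WA.Al.cx Pool.Agent.W792.WA.Al.fix Pool.Agent.N659.HB.Al.trg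

/-- **The theorem**, from the bound. -/
theorem of_bnd (h : S_BND) : S_FIN :=
  t_FIN (gapv h) Pool.Agent.N659.HB.Al.trg Pool.Agent.N659.HB.Al.chk
    Pool.Agent.W792.WA.Al.aeqk Pool.Agent.W792.WA.Al.aff WSP.main
    (Pool.Agent.W792.WA.Al.exists_lv Pool.Agent.W915.WA.WH.main Pool.Agent.W332.WA.WB.main
      Pool.Agent.W792.WA.Al.wd)

end Run7.h514.VI
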