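import Pool.Agent.Run7.h514.VI.Bet
import Pool.Agent.N163.HB.Gapa

/-!
# One momentum

For `MP_1906c1_mp` (project VI of helper47), part GAPV.
-/

set_option autoImplicit false

namespace Run7.h514.VI

open MeasureTheory Filter Pool.Agent.W792.LL Pool.Agent.W792.WA Pool.Agent.N659.HB
open Pool.Agent.N163.HB.GAPA
open scoped Topology ENNReal

noncomputable section

/-- The estimates for one momentum, with the mean `m` of the law given. -/
theorem one_k (hL : S_LV) (hU : S_UX) {ψ : C(UnitAddCircle, ℝ)} (hψ : IsSemi ψ)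
    {γ x u cS CS C₂ r : ℝ} (hγ : 0 < γ) (hx : 0 < x) (hu : 0 < u) (hu1 : u ≤ 1)
    (hcS : 0 < cS) (hcC : cS ≤ CS) (hC₂ : 0 < C₂) (h9 : 9 * u ≤ 2 * cS)
    (hr : r = γ * (x ^ 2 * u / 2))
    (ρ' : Measure ℝ) [IsProbabilityMeasure ρ']
    (hρ' : ρ' (Set.Icc (-(r / 8)) (r / 8))ᶜ = 0) {m : ℝ} (hm : |m| ≤ r + r / 8)
    (hexp : ∀ T : ℂ, 8 * (r + r / 8) ≤ ‖T‖ → bet ((lev ψ r).conv ρ') T ≠ 0 ∧
      ‖1 / bet ((lev ψ r).conv ρ') T - (T + (m : ℂ))‖ ≤ 5 * (r + r / 8) ^ 2 / ‖T‖ ∧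
      1 / (2 * ‖T‖) ≤ ‖bet ((lev ψ r).conv ρ') T‖)
    {y E τ : ℝ} {w S : ℂ} (hτ : 0 < τ) (hwr : w.re = γ * (y - E)) (hwi : w.im = -(γ * τ))
    (hS : ‖S‖ ≤ γ * (CS * x ^ 2)) (hSi : S.im ≤ -(γ * (cS * x ^ 2))) :
    bet ((lev ψ r).conv ρ') (w + S) ≠ 0 ∧
    Us ((lev ψ r).conv ρ') (cayx w) (cayx S 0) =
      cayx (1 / bet ((lev ψ r).conv ρ') (w + S) - S) 0 ∧
    ‖(1 / bet ((lev ψ r).conv ρ') (w + S) - S) / γ -
      ((y : ℂ) - ((E - m / γ : ℝ) : ℂ) - τ * Complex.I)‖ ≤ 2 / cS * (x ^ 2 * u ^ 2) ∧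
    ((1 / bet ((lev ψ r).conv ρ') (w + S) - S) / γ).im ≤ -τ ∧
    cS / (128 * (2 + CS) ^ 2) * (x ^ 2 * u ^ 2) *
      (x ^ 4 / ((y - (E - m / γ)) ^ 2 + x ^ 4)) ≤
        -((1 / bet ((lev ψ r).conv ρ') (w + S) - S) / γ).im ∧
    (x ^ 2 ≤ τ ∨ (|y - (E - m / γ)| ≤ C₂ * x ^ 2 →
      cS ^ 2 / (128 * (C₂ + 2 + CS) ^ 2) * (2 / cS * (x ^ 2 * u ^ 2)) ≤
        -((1 / bet ((lev ψ r).conv ρ') (w + S) - S) / γ).im - τ)) := by
  have hCS : 0 < CS := lt_of_lt_of_le hcS hcC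
  have hr0 : 0 < r := by rw [hr]; positivity
  have hprob : IsProbabilityMeasure (lev ψ r) := lev_prob ψ _
  have hsupp : ((lev ψ r).conv ρ') (Set.Icc (-(r + r / 8)) (r + r / 8))ᶜ = 0 :=
    conv_supp _ _ (lev_supp hψ hr0) hρ'
  have hγτ : 0 < γ * τ := by positivity
  have hη : 0 < γ * (cS * x ^ 2) := by positivity
  have him : (w + S).im ≤ -(γ * τ) - γ * (cS * x ^ 2) := by
    rw [Complex.add_im, hwi]
    linarith
  have him' : (w + S).im < 0 := by linarith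
  obtain ⟨u1, u2, u3⟩ := hU ((lev ψ r).conv ρ') _ w S hsupp (by rw [hwi]; linarith)
    (by linarith)
  obtain ⟨-, -, -, -, l5, -⟩ := hL ψ hψ r ρ' hr0 hρ' (w + S) him'
  obtain ⟨t, ht⟩ : ∃ t, t = ‖w + S‖ := ⟨_, rfl⟩
  have htη : γ * (cS * x ^ 2) ≤ t := by
    rw [ht]
    have h1 := (neg_abs_le _).trans (le_refl (w + S).im)
    have h2 := Complex.abs_im_le_norm (w + S)
    linarith
  have ht0 : 0 < t := by linarith
  have h8 : 8 * (r + r / 8) ≤ t := by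
    refine le_trans ?_ htη
    rw [hr]
    have h1 : γ * x ^ 2 * (9 * u) ≤ γ * x ^ 2 * (2 * cS) :=
      mul_le_mul_of_nonneg_left h9 (by positivity)
    linarith
  obtain ⟨b1, b2, b3⟩ := hexp (w + S) (by rw [← ht]; exact h8)
  rw [← ht] at b2 b3
  obtain ⟨β, hβ⟩ : ∃ β, β = bet ((lev ψ r).conv ρ') (w + S) := ⟨_, rfl⟩
  rw [← hβ] at u1 u2 u3 l5 b1 b2 b3 ⊢
  have hγC : (γ : ℂ) ≠ 0 := by
    exact_mod_cast hγ.ne'
  have hXim : ((1 / β - S) / γ).im = ((1 / β).im - S.im) / γ := by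
    rw [Complex.div_ofReal_im, Complex.sub_im]
  -- the bound of the imaginary part
  have hβ2 : 1 / (4 * t ^ 2) ≤ ‖β‖ ^ 2 := by
    have h1 : (1 / (2 * t)) ^ 2 ≤ ‖β‖ ^ 2 := pow_le_pow_left₀ (by positivity) b3 2
    have h2 : (1 / (2 * t)) ^ 2 = 1 / (4 * t ^ 2) := by
      field_simp
      norm_num
    rwa [h2] at h1
  have hmain : τ + cS * γ ^ 2 * (x ^ 6 * u ^ 2) / (64 * t ^ 2) ≤ -((1 / β - S) / γ).im := by
    rw [hXim]
    have h0 : -(((1 / β).im - S.im) / γ) = (-(1 / β).im + S.im) / γ := by ring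
    rw [h0, le_div_iff₀ hγ]
    have h1 : (-(w + S).im) * (1 + r ^ 2 / 4 * ‖β‖ ^ 2) =
        γ * τ - S.im + (-(w + S).im) * (r ^ 2 / 4 * ‖β‖ ^ 2) := by
      rw [Complex.add_im, hwi]
      ring
    rw [h1] at l5
    have h2 : (γ * (cS * x ^ 2)) * (r ^ 2 / 4 * (1 / (4 * t ^ 2))) ≤
        (-(w + S).im) * (r ^ 2 / 4 * ‖β‖ ^ 2) := by
      apply mul_le_mul (by linarith) _ (by positivity) (by linarith)
      exact mul_le_mul_of_nonneg_left hβ2 (by positivity)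
    have h3 : (γ * (cS * x ^ 2)) * (r ^ 2 / 4 * (1 / (4 * t ^ 2))) =
        cS * γ ^ 2 * (x ^ 6 * u ^ 2) / (64 * t ^ 2) * γ := by
      rw [hr]
      field_simp
      ring
    linarith
  have hpos : 0 ≤ cS * γ ^ 2 * (x ^ 6 * u ^ 2) / (64 * t ^ 2) := by positivity
  -- the size
  have hmγ : |m| ≤ γ * x ^ 2 := by
    refine hm.trans ?_
    rw [hr]
    have h1 : γ * x ^ 2 * u ≤ γ * x ^ 2 * 1 := mul_le_mul_of_nonneg_left hu1 (by positivity)
    have h2 : 0 < γ * x ^ 2 := by positivity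
    nlinarith
  have hsize : t ≤ γ * (|y - (E - m / γ)| + x ^ 2 + τ + CS * x ^ 2) := by
    have h1 := norm_add_le w S
    have h2 := Complex.norm_le_abs_re_add_abs_im w
    rw [hwr, hwi, abs_neg, abs_of_pos hγτ] at h2
    have h3 : γ * (y - E) = γ * (y - (E - m / γ)) - m := by
      field_simp
      ring
    have h4 : |γ * (y - E)| ≤ γ * |y - (E - m / γ)| + |m| := by
      rw [h3]
      refine (abs_sub _ _).trans ?_
      rw [abs_mul, abs_of_pos hγ]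
    rw [ht]
    linarith
  have hlow : ∀ B : ℝ, 0 < B → t ≤ γ * B →
      cS * (x ^ 6 * u ^ 2) / (64 * B ^ 2) ≤ cS * γ ^ 2 * (x ^ 6 * u ^ 2) / (64 * t ^ 2) := by
    intro B hB htB
    have h1 : t ^ 2 ≤ (γ * B) ^ 2 := pow_le_pow_left₀ ht0.le htB 2
    rw [div_le_div_iff₀ (by positivity) (by positivity)]
    have h2 : 0 ≤ cS * (x ^ 6 * u ^ 2) * 64 := by positivity
    nlinarith [mul_le_mul_of_nonneg_left h1 h2]
  refine ⟨u1, u3, ?_, ?_, ?_, ?_⟩
  · -- near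
    have e1 : (1 / β - S) / γ - ((y : ℂ) - ((E - m / γ : ℝ) : ℂ) - τ * Complex.I) =
        (1 / β - (w + S + (m : ℂ))) / γ := by
      have h1 : w = (γ : ℂ) * ((y : ℂ) - E - τ * Complex.I) := by
        apply Complex.ext
        · rw [hwr]
          simp
        · rw [hwi]
          simp
      rw [h1]
      push_cast
      field_simp
      ring
    rw [e1, norm_div, Complex.norm_real, Real.norm_of_nonneg hγ.le, div_le_iff₀ hγ]
    refine b2.trans ?_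
    rw [div_le_iff₀ ht0]
    have h2 : 2 / cS * (x ^ 2 * u ^ 2) * γ * (γ * (cS * x ^ 2)) ≤
        2 / cS * (x ^ 2 * u ^ 2) * γ * t := mul_le_mul_of_nonneg_left htη (by positivity)
    refine le_trans ?_ h2
    have h3 : 2 / cS * (x ^ 2 * u ^ 2) * γ * (γ * (cS * x ^ 2)) =
        2 * (γ ^ 2 * x ^ 4 * u ^ 2) := by
      field_simp
    rw [h3, hr]
    have h4 : 0 ≤ γ ^ 2 * x ^ 4 * u ^ 2 := by positivity
    nlinarith
  · linarith
  · -- dis
    have h0 : 0 ≤ (y - (E - m / γ)) ^ 2 := sq_nonneg _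
    have hx4 : 0 < x ^ 4 := by positivity
    have hq : x ^ 4 / ((y - (E - m / γ)) ^ 2 + x ^ 4) ≤ 1 := by
      rw [div_le_one (by positivity)]
      linarith
    rcases le_total (x ^ 2) τ with h | h
    · have h1 : cS / (128 * (2 + CS) ^ 2) ≤ 1 := by
        rw [div_le_one (by positivity)]
        nlinarith
      have hu2 : u ^ 2 ≤ 1 := by nlinarith
      calc cS / (128 * (2 + CS) ^ 2) * (x ^ 2 * u ^ 2) *
            (x ^ 4 / ((y - (E - m / γ)) ^ 2 + x ^ 4)) ≤ 1 * (x ^ 2 * 1) * 1 := by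
            apply mul_le_mul _ hq (by positivity) (by positivity)
            apply mul_le_mul h1 _ (by positivity) (by norm_num)
            exact mul_le_mul_of_nonneg_left hu2 (by positivity)
        _ = x ^ 2 := by ring
        _ ≤ τ := h
        _ ≤ _ := by linarith
    · obtain ⟨D, hD⟩ : ∃ D, D = |y - (E - m / γ)| := ⟨_, rfl⟩
      have hD0 : 0 ≤ D := by rw [hD]; exact abs_nonneg _
      have hDD : (y - (E - m / γ)) ^ 2 = D ^ 2 := by rw [hD, sq_abs]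
      rw [← hD] at hsize
      rw [hDD]
      have h1 : t ≤ γ * ((2 + CS) * (D + x ^ 2)) := by
        refine hsize.trans (mul_le_mul_of_nonneg_left ?_ hγ.le)
        nlinarith [mul_nonneg hCS.le hD0]
      have hB : 0 < (2 + CS) * (D + x ^ 2) := by positivity
      have h2 := hlow _ hB h1
      have h3 : cS / (128 * (2 + CS) ^ 2) * (x ^ 2 * u ^ 2) * (x ^ 4 / (D ^ 2 + x ^ 4)) ≤
          cS * (x ^ 6 * u ^ 2) / (64 * ((2 + CS) * (D + x ^ 2)) ^ 2) := by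
        have e1 : cS / (128 * (2 + CS) ^ 2) * (x ^ 2 * u ^ 2) * (x ^ 4 / (D ^ 2 + x ^ 4)) =
            cS * (x ^ 6 * u ^ 2) / (128 * (2 + CS) ^ 2 * (D ^ 2 + x ^ 4)) := by
          field_simp
        rw [e1]
        apply div_le_div_of_nonneg_left (by positivity) (by positivity)
        have h4 : (D + x ^ 2) ^ 2 ≤ 2 * (D ^ 2 + x ^ 4) := by
          nlinarith [sq_nonneg (D - x ^ 2)]
        have h5 : 0 ≤ 64 * (2 + CS) ^ 2 := by positivity
        nlinarith [mul_le_mul_of_nonneg_left h4 h5]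
      linarith
  · -- shell
    rcases le_total (x ^ 2) τ with h | h
    · exact Or.inl h
    · refine Or.inr fun hD => ?_
      have h1 : t ≤ γ * ((C₂ + 2 + CS) * x ^ 2) := by
        refine hsize.trans (mul_le_mul_of_nonneg_left ?_ hγ.le)
        linarith
      have hB : 0 < (C₂ + 2 + CS) * x ^ 2 := by positivity
      have h2 := hlow _ hB h1
      have h3 : cS ^ 2 / (128 * (C₂ + 2 + CS) ^ 2) * (2 / cS * (x ^ 2 * u ^ 2)) =
          cS * (x ^ 6 * u ^ 2) / (64 * ((C₂ + 2 + CS) * x ^ 2) ^ 2) := by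
        field_simp
        norm_num
      rw [h3]
      linarith

end

end Run7.h514.VI
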